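import Mathlib

set_option autoImplicit false

/-!
The second moment of `∑ ((α + β c) / p) / p` over `c`, by complete sums.
-/

namespace Pool.Agent.W468.ConjF
open Finset

/-- periodic function with vanishing mean -/
lemma periodic_sum (F : ℕ → ℝ) (m : ℕ) (hm : 0 < m) (hF : ∀ x, |F x| ≤ 1) (hper : ∀ x, F (x + m) = F x)
    (h0 : ∑ x ∈ range m, F x = 0) (N : ℕ) : |∑ x ∈ range N, F x| ≤ m := by
  have hper' : ∀ q x, F (m * q + x) = F x := by
    intro q
    induction q with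
    | zero => intro x; simp
    | succ q ih => intro x; rw [show m * (q + 1) + x = (m * q + x) + m by ring, hper, ih]
  have h1 : ∀ q, ∑ d ∈ range (m * q), F d = 0 := by
    intro q
    induction q with
    | zero => simp
    | succ q ih =>
      rw [Nat.mul_succ, Finset.sum_range_add, ih, zero_add]
      simp_rw [hper']
      exact h0
  rw [← Nat.div_add_mod N m, Finset.sum_range_add, h1, zero_add]
  simp_rw [hper']
  calc |∑ d ∈ range (N % m), F d| ≤ ∑ d ∈ range (N % m), |F d| := abs_sum_le_sum_abs _ _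
    _ ≤ ∑ d ∈ range (N % m), (1 : ℝ) := sum_le_sum fun d _ => hF d
    _ = ((N % m : ℕ) : ℝ) := by simp
    _ ≤ m := by exact_mod_cast (Nat.mod_lt _ hm).le

lemma sum_range_mul' (f : ℕ → ℤ) (p q : ℕ) :
    ∑ c ∈ range (p * q), f c = ∑ v ∈ range q, ∑ u ∈ range p, f (p * v + u) := by
  induction q with
  | zero => simp
  | succ q ih => rw [Nat.mul_succ, Finset.sum_range_add, ih, Finset.sum_range_succ]

/-- a complete linear sum -/
lemma lin_sum (q : ℕ) (hqp : q.Prime) (hq : q ≠ 2) (α β : ℤ) (hβ : ¬ (q : ℤ) ∣ β) :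
    ∑ v ∈ range q, jacobiSym (α + β * v) q = 0 := by
  have : Fact q.Prime := ⟨hqp⟩
  have h1 : ∀ v : ℕ, jacobiSym (α + β * v) q = quadraticChar (ZMod q) ((α : ZMod q) + β * (v : ZMod q)) := by
    intro v
    rw [← jacobiSym.legendreSym.to_jacobiSym, legendreSym]
    push_cast
    rfl
  simp_rw [h1]
  have h2 : ∑ v ∈ range q, quadraticChar (ZMod q) ((α : ZMod q) + β * (v : ZMod q)) =
      ∑ y : ZMod q, quadraticChar (ZMod q) ((α : ZMod q) + β * y) := by
    symm
    refine Finset.sum_bij' (fun a _ => a.val) (fun d _ => (d : ZMod q)) ?_ ?_ ?_ ?_ ?_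
    · intro a _; exact mem_range.2 (ZMod.val_lt a)
    · intro d _; exact mem_univ _
    · intro a _; exact ZMod.natCast_zmod_val a
    · intro d hd; exact ZMod.val_cast_of_lt (mem_range.1 hd)
    · intro a _; rw [ZMod.natCast_zmod_val]
  rw [h2]
  have hβ' : (β : ZMod q) ≠ 0 := by
    rw [Ne, ZMod.intCast_zmod_eq_zero_iff_dvd]; exact hβ
  have hb : Function.Bijective (fun y : ZMod q => (α : ZMod q) + β * y) := by
    constructor
    · intro y y' h
      exact mul_left_cancel₀ hβ' (add_left_cancel h)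
    · intro w
      refine ⟨(w - α) * (β : ZMod q)⁻¹, ?_⟩
      field_simp
      ring
  rw [hb.sum_comp (fun y => quadraticChar (ZMod q) y)]
  apply quadraticChar_sum_zero
  rw [ZMod.ringChar_zmod_n]
  exact hq

lemma js_per (D : ℤ) (k : ℤ) (p : ℕ) : jacobiSym (D + p * k) p = jacobiSym D p := by
  rw [jacobiSym.mod_left, jacobiSym.mod_left D]
  congr 1
  exact Int.add_mul_emod_self_left _ _ _

/-- the complete sum for two primes -/
lemma pair_sum (p q : ℕ) (hp : p.Prime) (hq : q.Prime) (hq2 : q ≠ 2) (hpq : p ≠ q) (α β : ℤ)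
    (hβ : ¬ (q : ℤ) ∣ β) :
    ∑ c ∈ range (p * q), jacobiSym (α + β * c) p * jacobiSym (α + β * c) q = 0 := by
  rw [sum_range_mul' (fun c => jacobiSym (α + β * c) p * jacobiSym (α + β * c) q), sum_comm]
  apply sum_eq_zero
  intro u _
  have h1 : ∀ v ∈ range q, jacobiSym (α + β * ((p * v + u : ℕ) : ℤ)) p * jacobiSym (α + β * ((p * v + u : ℕ) : ℤ)) q =
      jacobiSym (α + β * u) p * jacobiSym ((α + β * u) + (β * p) * v) q := by
    intro v _
    have e1 : α + β * ((p * v + u : ℕ) : ℤ) = (α + β * u) + p * (β * v) := by push_cast; ring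
    have e2 : α + β * ((p * v + u : ℕ) : ℤ) = (α + β * u) + (β * p) * v := by push_cast; ring
    rw [← e2, e1, js_per]
  rw [sum_congr rfl h1, ← mul_sum, lin_sum q hq hq2, mul_zero]
  intro h
  rcases (Nat.prime_iff_prime_int.1 hq).dvd_or_dvd h with h2 | h2
  · exact hβ h2
  · have := (Nat.prime_dvd_prime_iff_eq hq hp).1 (by exact_mod_cast h2)
    exact hpq this.symm

lemma js_abs (D : ℤ) (p : ℕ) : |(jacobiSym D p : ℝ)| ≤ 1 := by
  rcases jacobiSym.trichotomy D p with h | h | h <;> rw [h] <;> simp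

lemma sum_inv_sq (z Z : ℕ) (hz : 1 ≤ z) (h : z ≤ Z) : ∑ n ∈ Ioc z Z, 1 / ((n : ℝ) ^ 2) ≤ 1 / (z : ℝ) - 1 / (Z : ℝ) := by
  induction Z, h using Nat.le_induction with
  | base => simp
  | succ Z hZ ih =>
    rw [← Finset.insert_Ioc_right_eq_Ioc_add_one hZ, Finset.sum_insert (by simp)]
    have hZ0 : (0 : ℝ) < Z := by exact_mod_cast (by omega : 0 < Z)
    have h1 : 1 / (((Z + 1 : ℕ) : ℝ) ^ 2) ≤ 1 / (Z : ℝ) - 1 / ((Z + 1 : ℕ) : ℝ) := by
      push_cast
      rw [div_sub_div _ _ hZ0.ne' (by positivity), div_le_div_iff₀ (by positivity) (by positivity)]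
      nlinarith
    linarith

theorem second_moment (α β : ℤ) (P : Finset ℕ) (z Z H : ℕ) (hz : 1 ≤ z)
    (hP : ∀ p ∈ P, p.Prime ∧ p ≠ 2 ∧ z < p ∧ p ≤ Z ∧ ¬ (p : ℤ) ∣ β) :
    ∑ c ∈ range H, (∑ p ∈ P, (jacobiSym (α + β * c) p : ℝ) / p) ^ 2 ≤ H / z + (Z : ℝ) ^ 2 := by
  classical
  have h1 : ∑ c ∈ range H, (∑ p ∈ P, (jacobiSym (α + β * c) p : ℝ) / p) ^ 2 =
      ∑ p ∈ P, ∑ q ∈ P, (∑ c ∈ range H, (jacobiSym (α + β * c) p : ℝ) * (jacobiSym (α + β * c) q : ℝ)) / (p * q) := by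
    simp_rw [sq, sum_mul_sum]
    rw [sum_comm]
    apply sum_congr rfl
    intro p _
    rw [sum_comm]
    apply sum_congr rfl
    intro q _
    rw [sum_div]
    apply sum_congr rfl
    intro c _
    rw [div_mul_div_comm]
  rw [h1]
  have h2 : ∀ p ∈ P, ∀ q ∈ P, (∑ c ∈ range H, (jacobiSym (α + β * c) p : ℝ) * (jacobiSym (α + β * c) q : ℝ)) / (p * q) ≤
      (if p = q then (H : ℝ) * (1 / (p : ℝ) ^ 2) else 0) + 1 := by
    intro p hp q hq
    obtain ⟨hpp, hp2, hzp, hpZ, hpβ⟩ := hP p hp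
    obtain ⟨hqp, hq2, hzq, hqZ, hqβ⟩ := hP q hq
    have hp0 : (0 : ℝ) < p := by exact_mod_cast hpp.pos
    have hq0 : (0 : ℝ) < q := by exact_mod_cast hqp.pos
    by_cases hpq : p = q
    · subst hpq
      rw [if_pos rfl]
      have h3 : ∑ c ∈ range H, (jacobiSym (α + β * c) p : ℝ) * (jacobiSym (α + β * c) p : ℝ) ≤ H := by
        calc ∑ c ∈ range H, (jacobiSym (α + β * c) p : ℝ) * (jacobiSym (α + β * c) p : ℝ) ≤ ∑ c ∈ range H, (1 : ℝ) := by
              apply sum_le_sum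
              intro c _
              rw [← sq, sq_le_one_iff_abs_le_one]
              exact js_abs _ _
          _ = H := by simp
      have h4 : (∑ c ∈ range H, (jacobiSym (α + β * c) p : ℝ) * (jacobiSym (α + β * c) p : ℝ)) / (p * p) ≤
          (H : ℝ) * (1 / (p : ℝ) ^ 2) := by
        rw [mul_one_div, sq]
        exact div_le_div_of_nonneg_right h3 (by positivity)
      linarith
    · rw [if_neg hpq, zero_add, div_le_one (by positivity)]
      refine (le_abs_self _).trans ?_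
      have h3 := periodic_sum (fun c => (jacobiSym (α + β * c) p : ℝ) * (jacobiSym (α + β * c) q : ℝ)) (p * q)
        (Nat.mul_pos hpp.pos hqp.pos) ?_ ?_ ?_ H
      · push_cast at h3; exact h3
      · intro x
        rw [abs_mul]
        exact mul_le_one₀ (js_abs _ _) (abs_nonneg _) (js_abs _ _)
      · intro x
        have e1 : α + β * ((x + p * q : ℕ) : ℤ) = (α + β * x) + p * (β * q) := by push_cast; ring
        have e2 : α + β * ((x + p * q : ℕ) : ℤ) = (α + β * x) + q * (β * p) := by push_cast; ring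
        have e3 : jacobiSym (α + β * ((x + p * q : ℕ) : ℤ)) p = jacobiSym (α + β * x) p := by rw [e1, js_per]
        have e4 : jacobiSym (α + β * ((x + p * q : ℕ) : ℤ)) q = jacobiSym (α + β * x) q := by rw [e2, js_per]
        simp only [e3, e4]
      · have h4 := pair_sum p q hpp hqp hq2 hpq α β hqβ
        exact_mod_cast h4
  calc ∑ p ∈ P, ∑ q ∈ P, (∑ c ∈ range H, (jacobiSym (α + β * c) p : ℝ) * (jacobiSym (α + β * c) q : ℝ)) / (p * q)
      ≤ ∑ p ∈ P, ∑ q ∈ P, ((if p = q then (H : ℝ) * (1 / (p : ℝ) ^ 2) else 0) + 1) :=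
        sum_le_sum fun p hp => sum_le_sum fun q hq => h2 p hp q hq
    _ = (H : ℝ) * ∑ p ∈ P, 1 / (p : ℝ) ^ 2 + (#P : ℝ) ^ 2 := by
        simp_rw [sum_add_distrib]
        congr 1
        · rw [mul_sum]
          apply sum_congr rfl
          intro p hp
          rw [sum_ite_eq, if_pos hp]
        · simp [sq]
    _ ≤ H / z + (Z : ℝ) ^ 2 := by
        have hsub : P ⊆ Ioc z Z := by
          intro p hp
          rw [mem_Ioc]
          exact ⟨(hP p hp).2.2.1, (hP p hp).2.2.2.1⟩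
        have hcard : (#P : ℝ) ≤ Z := by
          have := card_le_card hsub
          rw [Nat.card_Ioc] at this
          exact_mod_cast this.trans (Nat.sub_le _ _)
        have h5 : ∑ p ∈ P, 1 / (p : ℝ) ^ 2 ≤ 1 / (z : ℝ) := by
          rcases P.eq_empty_or_nonempty with h | ⟨p, hp⟩
          · rw [h, sum_empty]; positivity
          · have hzZ : z ≤ Z := by
              have := hP p hp
              omega
            calc ∑ p ∈ P, 1 / (p : ℝ) ^ 2 ≤ ∑ n ∈ Ioc z Z, 1 / (n : ℝ) ^ 2 :=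
                  sum_le_sum_of_subset_of_nonneg hsub (fun _ _ _ => by positivity)
              _ ≤ 1 / (z : ℝ) - 1 / (Z : ℝ) := sum_inv_sq z Z hz hzZ
              _ ≤ 1 / (z : ℝ) := by
                  have : (0 : ℝ) ≤ 1 / (Z : ℝ) := by positivity
                  linarith
        have h6 : (H : ℝ) * ∑ p ∈ P, 1 / (p : ℝ) ^ 2 ≤ H * (1 / (z : ℝ)) := mul_le_mul_of_nonneg_left h5 (by positivity)
        have h7 : (#P : ℝ) ^ 2 ≤ (Z : ℝ) ^ 2 := pow_le_pow_left₀ (by positivity) hcard 2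
        rw [mul_one_div] at h6
        linarith

/-- few `c` with a large sum -/
theorem low_count (α β : ℤ) (P : Finset ℕ) (z Z H : ℕ) (hz : 1 ≤ z)
    (hP : ∀ p ∈ P, p.Prime ∧ p ≠ 2 ∧ z < p ∧ p ≤ Z ∧ ¬ (p : ℤ) ∣ β) (τ : ℝ) (hτ : 0 < τ) :
    (#((range H).filter (fun c : ℕ => τ < |∑ p ∈ P, (jacobiSym (α + β * c) p : ℝ) / p|)) : ℝ) ≤
      (H / z + (Z : ℝ) ^ 2) / τ ^ 2 := by
  rw [le_div_iff₀ (by positivity)]
  refine le_trans ?_ (second_moment α β P z Z H hz hP)
  calc (#((range H).filter (fun c : ℕ => τ < |∑ p ∈ P, (jacobiSym (α + β * c) p : ℝ) / p|)) : ℝ) * τ ^ 2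
      = ∑ c ∈ (range H).filter (fun c : ℕ => τ < |∑ p ∈ P, (jacobiSym (α + β * c) p : ℝ) / p|), τ ^ 2 := by
        rw [sum_const, nsmul_eq_mul]
    _ ≤ ∑ c ∈ (range H).filter (fun c : ℕ => τ < |∑ p ∈ P, (jacobiSym (α + β * c) p : ℝ) / p|),
        (∑ p ∈ P, (jacobiSym (α + β * c) p : ℝ) / p) ^ 2 := by
        apply sum_le_sum
        intro c hc
        rw [mem_filter] at hc
        rw [← sq_abs (∑ p ∈ P, (jacobiSym (α + β * c) p : ℝ) / p)]
        exact pow_le_pow_left₀ hτ.le hc.2.le 2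
    _ ≤ _ := sum_le_sum_of_subset_of_nonneg (filter_subset _ _) (fun _ _ _ => sq_nonneg _)

end Pool.Agent.W468.ConjF
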