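import Mathlib
import Pool.Agent.H307R2.OP.BAD

set_option autoImplicit false

/-!
Sums of `(D / p) / p` over dyadic blocks of primes, for all but few discriminants `D = b^2 - 4 a c`.
-/

namespace Pool.Agent.W468.ConjF
open Finset
open Pool.Agent.H307R2.OP (J PB badCount)

/-- the odd squarefree kernel -/
lemma kernel (D : ℤ) (hD : D ≠ 0) : ∃ δ s : ℕ, ∃ u ∈ ({1, -1, 2, -2} : Finset ℤ),
    D = u * (s : ℤ) ^ 2 * δ ∧ Squarefree δ ∧ δ % 2 = 1 := by
  obtain ⟨a, b, hab, hsf⟩ := Nat.sq_mul_squarefree D.natAbs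
  have ha0 : a ≠ 0 := hsf.ne_zero
  -- the odd part
  have h1 : ∃ δ : ℕ, ∃ e ∈ ({1, 2} : Finset ℕ), a = e * δ ∧ Squarefree δ ∧ δ % 2 = 1 := by
    by_cases h2 : a % 2 = 1
    · exact ⟨a, 1, by simp, by ring, hsf, h2⟩
    · have h3 : 2 ∣ a := by omega
      obtain ⟨δ, hδ⟩ := h3
      refine ⟨δ, 2, by simp, hδ, ?_, ?_⟩
      · rw [hδ] at hsf
        exact Squarefree.of_mul_right hsf
      · by_contra h4
        have h5 : 2 ∣ δ := by omega
        obtain ⟨k, hk⟩ := h5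
        have h6 : IsUnit 2 := hsf 2 ⟨k, by rw [hδ, hk]; ring⟩
        rw [Nat.isUnit_iff] at h6
        omega
  obtain ⟨δ, e, he, hae, hδ1, hδ2⟩ := h1
  have h3 : (D.natAbs : ℤ) = e * (b : ℤ) ^ 2 * δ := by
    rw [← hab, hae]; push_cast; ring
  simp only [mem_insert, mem_singleton] at he
  rcases Int.natAbs_eq D with h4 | h4
  · refine ⟨δ, b, e, ?_, by rw [h4, h3], hδ1, hδ2⟩
    rcases he with rfl | rfl <;> simp
  · refine ⟨δ, b, -(e : ℤ), ?_, by rw [h4, h3]; ring, hδ1, hδ2⟩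
    rcases he with rfl | rfl <;> simp

/-- the symbol is constant times `(p / δ)` on classes modulo 8 -/
lemma symbol (u : ℤ) (hu : u ∈ ({1, -1, 2, -2} : Finset ℤ)) (s δ : ℕ) (hδ : δ % 2 = 1) (r : ℕ)
    (hr : r ∈ ({1, 3, 5, 7} : Finset ℕ)) : ∃ e : ℤ, |e| ≤ 1 ∧ ∀ p : ℕ, p.Prime → p % 8 = r → ¬ p ∣ s →
      jacobiSym (u * (s : ℤ) ^ 2 * δ) p = e * jacobiSym p δ := by
  have hr2 : r % 2 = 1 := by
    simp only [mem_insert, mem_singleton] at hr; omega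
  -- the first factor
  have h1 : ∃ e : ℤ, |e| ≤ 1 ∧ ∀ p : ℕ, p % 8 = r → jacobiSym u p = e := by
    simp only [mem_insert, mem_singleton] at hu
    have hodd : ∀ p : ℕ, p % 8 = r → Odd p := by
      intro p hp; rw [Nat.odd_iff]; omega
    have hc8 : ∀ p : ℕ, p % 8 = r → (p : ZMod 8) = (r : ZMod 8) := by
      intro p hp
      rw [← hp, ZMod.natCast_mod]
    have hc4 : ∀ p : ℕ, p % 8 = r → (p : ZMod 4) = (r : ZMod 4) := by
      intro p hp
      rw [ZMod.natCast_eq_natCast_iff']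
      omega
    have hab : ∀ x : ℤ, x = 1 ∨ x = 0 ∨ x = -1 → |x| ≤ 1 := by
      rintro x (h | h | h) <;> rw [h] <;> simp
    rcases hu with rfl | rfl | rfl | rfl
    · exact ⟨1, by simp, fun p _ => jacobiSym.one_left p⟩
    · refine ⟨ZMod.χ₄ (r : ZMod 4), ?_, fun p hp => ?_⟩
      · apply hab
        generalize (r : ZMod 4) = x
        revert x; decide
      · rw [jacobiSym.at_neg_one (hodd p hp), hc4 p hp]
    · refine ⟨ZMod.χ₈ (r : ZMod 8), ?_, fun p hp => ?_⟩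
      · apply hab
        generalize (r : ZMod 8) = x
        revert x; decide
      · rw [jacobiSym.at_two (hodd p hp), hc8 p hp]
    · refine ⟨ZMod.χ₈' (r : ZMod 8), ?_, fun p hp => ?_⟩
      · apply hab
        generalize (r : ZMod 8) = x
        revert x; decide
      · rw [jacobiSym.at_neg_two (hodd p hp), hc8 p hp]
  obtain ⟨e₁, he₁, h1⟩ := h1
  have hδo : Odd δ := Nat.odd_iff.2 hδ
  have h2 : ∃ e : ℤ, |e| ≤ 1 ∧ ∀ p : ℕ, p % 8 = r → jacobiSym (δ : ℤ) p = e * jacobiSym p δ := by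
    by_cases hr4 : r % 4 = 1
    · refine ⟨1, by simp, fun p hp => ?_⟩
      rw [one_mul]
      exact (jacobiSym.quadratic_reciprocity_one_mod_four (by omega) hδo).symm
    · by_cases hd4 : δ % 4 = 1
      · refine ⟨1, by simp, fun p hp => ?_⟩
        rw [one_mul]
        exact jacobiSym.quadratic_reciprocity_one_mod_four hd4 (Nat.odd_iff.2 (by omega))
      · refine ⟨-1, by simp, fun p hp => ?_⟩
        rw [neg_one_mul]
        exact jacobiSym.quadratic_reciprocity_three_mod_four (by omega) (by omega)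
  obtain ⟨e₂, he₂, h2⟩ := h2
  refine ⟨e₁ * e₂, ?_, ?_⟩
  · rw [abs_mul]
    exact mul_le_one₀ he₁ (abs_nonneg _) he₂
  · intro p hp hpr hps
    rw [jacobiSym.mul_left, jacobiSym.mul_left, h1 p hpr, h2 p hpr, jacobiSym.sq_one']
    · ring
    · rw [Int.gcd_natCast_natCast]
      exact ((Nat.Prime.coprime_iff_not_dvd hp).2 hps).symm

lemma js_zero (D : ℤ) (p : ℕ) (hp : p.Prime) (h : (p : ℤ) ∣ D) : jacobiSym D p = 0 := by
  have : NeZero p := ⟨hp.ne_zero⟩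
  rw [jacobiSym.eq_zero_iff_not_coprime]
  intro h1
  have h2 : (p : ℤ) ∣ (Int.gcd D p : ℤ) := Int.dvd_coe_gcd h dvd_rfl
  rw [h1] at h2
  have := Int.le_of_dvd (by norm_num) h2
  have := hp.two_le
  omega

lemma card_prime_dvd (s : ℕ) (hs : s ≠ 0) (P : Finset ℕ) (hP : ∀ p ∈ P, p.Prime ∧ p ∣ s) : #P ≤ Nat.log 2 s := by
  apply Nat.le_log_of_pow_le (by norm_num)
  calc 2 ^ #P = ∏ p ∈ P, 2 := by simp
    _ ≤ ∏ p ∈ P, p := prod_le_prod' fun p hp => (hP p hp).1.two_le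
    _ ≤ ∏ p ∈ s.primeFactors, p := by
        apply prod_le_prod_of_subset_of_one_le'
        · intro p hp
          exact Nat.mem_primeFactors.2 ⟨(hP p hp).1, (hP p hp).2, hs⟩
        · intro p hp _
          exact (Nat.prime_of_mem_primeFactors hp).one_lt.le
    _ ≤ s := Nat.le_of_dvd (Nat.pos_of_ne_zero hs) (Nat.prod_primeFactors_dvd s)

/-- the primes of a block -/
def Blk (i : ℕ) : Finset ℕ := (Ioc (2 ^ i) (2 ^ (i + 1))).filter Nat.Prime

lemma blk_split (i : ℕ) (hi : 1 ≤ i) (f : ℕ → ℝ) :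
    ∑ p ∈ Blk i, f p = ∑ r ∈ ({1, 3, 5, 7} : Finset ℕ), ∑ p ∈ PB i r, f p := by
  rw [← sum_biUnion]
  · apply sum_congr _ (fun _ _ => rfl)
    ext p
    simp only [Blk, PB, mem_filter, mem_biUnion, mem_Ioc]
    constructor
    · rintro ⟨h1, h2⟩
      refine ⟨p % 8, ?_, h1, h2, rfl⟩
      have h3 : p ≠ 2 := by
        have : 2 ^ 1 ≤ 2 ^ i := Nat.pow_le_pow_right (by norm_num) hi
        omega
      have h4 := h2.eq_two_or_odd
      simp only [mem_insert, mem_singleton]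
      omega
    · rintro ⟨r, -, h1, h2, -⟩
      exact ⟨h1, h2⟩
  · intro r _ r' _ hne
    rw [Function.onFun, Finset.disjoint_left]
    intro p h1 h2
    simp only [PB, mem_filter] at h1 h2
    exact hne (h1.2.2.symm.trans h2.2.2)

lemma block_bound (D : ℤ) (Δ : ℕ) (hΔ : D.natAbs ≤ Δ) (δ s : ℕ) (u : ℤ)
    (hu : u ∈ ({1, -1, 2, -2} : Finset ℤ)) (hD0 : D ≠ 0) (hD : D = u * (s : ℤ) ^ 2 * δ) (hδ : δ % 2 = 1) (i : ℕ)
    (hi : 1 ≤ i) (τ : ℝ) (hτ : ∀ r ∈ ({1, 3, 5, 7} : Finset ℕ), |∑ p ∈ PB i r, J p δ / p| ≤ τ) :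
    |∑ p ∈ Blk i, (jacobiSym D p : ℝ) / p| ≤ 4 * τ + 4 * (Nat.log 2 Δ / 2 ^ i) := by
  have hs0 : s ≠ 0 := by
    rintro rfl
    apply hD0; rw [hD]; simp
  have hsΔ : s ≤ Δ := by
    refine le_trans ?_ hΔ
    have h1 : s ∣ D.natAbs := by
      rw [← Int.natCast_dvd_natCast, Int.dvd_natAbs, hD]
      exact ⟨u * s * δ, by ring⟩
    exact Nat.le_of_dvd (Int.natAbs_pos.2 hD0) h1
  have key : ∀ r ∈ ({1, 3, 5, 7} : Finset ℕ), |∑ p ∈ PB i r, (jacobiSym D p : ℝ) / p| ≤ τ + Nat.log 2 Δ / 2 ^ i := by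
    intro r hr
    obtain ⟨e, he, hsym⟩ := symbol u hu s δ hδ r hr
    have h1 : ∑ p ∈ PB i r, (jacobiSym D p : ℝ) / p =
        e * (∑ p ∈ PB i r, J p δ / p - ∑ p ∈ (PB i r).filter (fun p => p ∣ s), J p δ / p) := by
      rw [← sum_filter_add_sum_filter_not (PB i r) (fun p => p ∣ s) (fun p => J p δ / p), add_sub_cancel_left]
      rw [← sum_filter_add_sum_filter_not (PB i r) (fun p => p ∣ s) (fun p => (jacobiSym D p : ℝ) / p)]
      have h2 : ∑ p ∈ (PB i r).filter (fun p => p ∣ s), (jacobiSym D p : ℝ) / p = 0 := by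
        apply sum_eq_zero
        intro p hp
        rw [mem_filter, PB, mem_filter] at hp
        rw [js_zero D p hp.1.2.1, Int.cast_zero, zero_div]
        rw [hD]
        have : (p : ℤ) ∣ (s : ℤ) := by exact_mod_cast hp.2
        obtain ⟨k, hk⟩ := this
        exact ⟨u * k * s * δ, by rw [hk]; ring⟩
      rw [h2, zero_add, mul_sum]
      apply sum_congr rfl
      intro p hp
      rw [mem_filter, PB, mem_filter] at hp
      rw [hD, hsym p hp.1.2.1 hp.1.2.2 hp.2]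
      unfold J
      push_cast
      ring
    rw [h1, abs_mul]
    have he' : |(e : ℝ)| ≤ 1 := by exact_mod_cast he
    have h3 : |∑ p ∈ (PB i r).filter (fun p => p ∣ s), J p δ / p| ≤ Nat.log 2 Δ / 2 ^ i := by
      calc |∑ p ∈ (PB i r).filter (fun p => p ∣ s), J p δ / p|
          ≤ ∑ p ∈ (PB i r).filter (fun p => p ∣ s), |J p δ / p| := abs_sum_le_sum_abs _ _
        _ ≤ ∑ p ∈ (PB i r).filter (fun p => p ∣ s), 1 / 2 ^ i := by
            apply sum_le_sum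
            intro p hp
            rw [mem_filter, PB, mem_filter, mem_Ioc] at hp
            have hp0 : (2 : ℝ) ^ i ≤ p := by exact_mod_cast hp.1.1.1.le
            have hp1 : (0 : ℝ) < 2 ^ i := by positivity
            rw [abs_div, Nat.abs_cast]
            apply div_le_div₀ (by norm_num) _ hp1 hp0
            unfold J
            rcases jacobiSym.trichotomy (p : ℤ) δ with h | h | h <;> rw [h] <;> simp
        _ = (#((PB i r).filter (fun p => p ∣ s)) : ℝ) / 2 ^ i := by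
            rw [sum_const, nsmul_eq_mul]; ring
        _ ≤ Nat.log 2 Δ / 2 ^ i := by
            apply div_le_div_of_nonneg_right _ (by positivity)
            have h4 := card_prime_dvd s hs0 ((PB i r).filter (fun p => p ∣ s)) (by
              intro p hp
              rw [mem_filter, PB, mem_filter] at hp
              exact ⟨hp.1.2.1, hp.2⟩)
            exact_mod_cast h4.trans (Nat.log_mono_right hsΔ)
    calc |(e : ℝ)| * |∑ p ∈ PB i r, J p δ / p - ∑ p ∈ (PB i r).filter (fun p => p ∣ s), J p δ / p|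
        ≤ 1 * (|∑ p ∈ PB i r, J p δ / p| + |∑ p ∈ (PB i r).filter (fun p => p ∣ s), J p δ / p|) := by
          apply mul_le_mul he' (abs_sub _ _) (abs_nonneg _) (by norm_num)
      _ ≤ _ := by
          rw [one_mul]
          exact add_le_add (hτ r hr) h3
  rw [blk_split i hi]
  calc |∑ r ∈ ({1, 3, 5, 7} : Finset ℕ), ∑ p ∈ PB i r, (jacobiSym D p : ℝ) / p|
      ≤ ∑ r ∈ ({1, 3, 5, 7} : Finset ℕ), |∑ p ∈ PB i r, (jacobiSym D p : ℝ) / p| := abs_sum_le_sum_abs _ _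
    _ ≤ ∑ r ∈ ({1, 3, 5, 7} : Finset ℕ), (τ + Nat.log 2 Δ / 2 ^ i) := sum_le_sum key
    _ = 4 * τ + 4 * (Nat.log 2 Δ / 2 ^ i) := by
        rw [sum_const, show #({1, 3, 5, 7} : Finset ℕ) = 4 from rfl, nsmul_eq_mul]
        push_cast; ring

open Classical in
/-- bad kernels -/
noncomputable def BadK (Δ i0 I : ℕ) : Finset ℕ := (range (Δ + 1)).filter (fun δ => Squarefree δ ∧ δ % 2 = 1 ∧
  ∃ i ∈ Icc i0 I, ∃ r ∈ ({1, 3, 5, 7} : Finset ℕ), 1 / (i : ℝ) ^ 2 < |∑ p ∈ PB i r, J p δ / p|)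

lemma badK_card (Δ i0 I m : ℕ) (hi0 : 1 ≤ i0) (hm : 1 ≤ m) (hΔ : Δ ^ 3 ≤ (2 * 2 ^ i0) ^ m) :
    (#(BadK Δ i0 I) : ℝ) ≤ (I : ℝ) * (8 * (2 * m * (I : ℝ) ^ 4) ^ m) := by
  classical
  have hsub : BadK Δ i0 I ⊆ (Icc i0 I).biUnion (fun i => ({1, 3, 5, 7} : Finset ℕ).biUnion (fun r =>
      (range (Δ + 1)).filter (fun δ => Squarefree δ ∧ δ % 2 = 1 ∧ 1 / (i : ℝ) ^ 2 < |∑ p ∈ PB i r, J p δ / p|))) := by
    intro δ hδ
    rw [BadK, mem_filter] at hδ
    obtain ⟨h1, h2, h3, i, hi, r, hr, h4⟩ := hδ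
    rw [mem_biUnion]
    refine ⟨i, hi, ?_⟩
    rw [mem_biUnion]
    exact ⟨r, hr, mem_filter.2 ⟨h1, h2, h3, h4⟩⟩
  have hone : ∀ i ∈ Icc i0 I, ∀ r ∈ ({1, 3, 5, 7} : Finset ℕ),
      (#((range (Δ + 1)).filter (fun δ => Squarefree δ ∧ δ % 2 = 1 ∧ 1 / (i : ℝ) ^ 2 < |∑ p ∈ PB i r, J p δ / p|)) : ℝ) ≤
        2 * (2 * m * (I : ℝ) ^ 4) ^ m := by
    intro i hi r hr
    rw [mem_Icc] at hi
    have hi1 : (1 : ℝ) ≤ i := by exact_mod_cast (by omega : 1 ≤ i)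
    have h1 := badCount (2 ^ i) Δ m (1 / (i : ℝ) ^ 2) (PB i r)
      ((range (Δ + 1)).filter (fun δ => Squarefree δ ∧ δ % 2 = 1 ∧ 1 / (i : ℝ) ^ 2 < |∑ p ∈ PB i r, J p δ / p|))
      (by
        calc 2 = 2 ^ 1 := rfl
          _ ≤ 2 ^ i := Nat.pow_le_pow_right (by norm_num) (by omega))
      hm (hΔ.trans (Nat.pow_le_pow_left (Nat.mul_le_mul_left 2 (Nat.pow_le_pow_right (by norm_num) hi.1)) m))
      (by positivity)
      (by
        intro p hp
        rw [PB, mem_filter, mem_Ioc] at hp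
        refine ⟨hp.2.1, hp.1.1, ?_⟩
        have := hp.1.2
        rw [pow_succ] at this
        omega)
      (by
        intro δ hδ
        rw [mem_filter, mem_range] at hδ
        exact ⟨hδ.2.1, hδ.2.2.1, by omega, hδ.2.2.2⟩)
    refine h1.trans ?_
    have h2 : 2 * (m : ℝ) / (1 / (i : ℝ) ^ 2) ^ 2 = 2 * m * (i : ℝ) ^ 4 := by
      field_simp
    rw [h2]
    have h3 : (i : ℝ) ≤ I := by exact_mod_cast hi.2
    gcongr
  have hN := (card_le_card hsub).trans (card_biUnion_le.trans (sum_le_sum fun i (_ : i ∈ Icc i0 I) => card_biUnion_le))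
  have hR := (Nat.cast_le (α := ℝ)).2 hN
  simp only [Nat.cast_sum] at hR
  calc (#(BadK Δ i0 I) : ℝ) ≤ ∑ i ∈ Icc i0 I, ∑ r ∈ ({1, 3, 5, 7} : Finset ℕ), (#((range (Δ + 1)).filter (fun δ => Squarefree δ ∧ δ % 2 = 1 ∧
        1 / (i : ℝ) ^ 2 < |∑ p ∈ PB i r, J p δ / p|)) : ℝ) := hR
    _ ≤ ∑ i ∈ Icc i0 I, ∑ r ∈ ({1, 3, 5, 7} : Finset ℕ), 2 * (2 * m * (I : ℝ) ^ 4) ^ m :=
        sum_le_sum fun i hi => sum_le_sum fun r hr => hone i hi r hr
    _ = #(Icc i0 I) * (8 * (2 * m * (I : ℝ) ^ 4) ^ m) := by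
        simp only [sum_const, nsmul_eq_mul, show #({1, 3, 5, 7} : Finset ℕ) = 4 from rfl]
        push_cast; ring
    _ ≤ (I : ℝ) * (8 * (2 * m * (I : ℝ) ^ 4) ^ m) := by
        apply mul_le_mul_of_nonneg_right _ (by positivity)
        rw [Nat.card_Icc]
        exact_mod_cast (by omega : I + 1 - i0 ≤ I)

/-- all but few `c` are good on all blocks -/
theorem mid_count (a b : ℤ) (ha : a ≠ 0) (H Δ i0 I m : ℕ)
    (hΔ : ∀ c ∈ Icc 1 H, (b ^ 2 - 4 * a * (c : ℤ)).natAbs ≤ Δ) (hi0 : 1 ≤ i0) (hm : 1 ≤ m)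
    (hΔ3 : Δ ^ 3 ≤ (2 * 2 ^ i0) ^ m) :
    ∃ E : Finset ℕ, (#E : ℝ) ≤ 4 * (Nat.sqrt Δ + 1) * ((I : ℝ) * (8 * (2 * m * (I : ℝ) ^ 4) ^ m)) ∧
      ∀ c ∈ Icc 1 H, c ∉ E → b ^ 2 - 4 * a * (c : ℤ) ≠ 0 → ∀ i ∈ Icc i0 I,
        |∑ p ∈ Blk i, (jacobiSym (b ^ 2 - 4 * a * (c : ℤ)) p : ℝ) / p| ≤
          4 * (1 / (i : ℝ) ^ 2) + 4 * (Nat.log 2 Δ / 2 ^ i) := by
  classical
  set T := ({1, -1, 2, -2} : Finset ℤ) ×ˢ range (Nat.sqrt Δ + 1) ×ˢ BadK Δ i0 I with hT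
  set E := (Icc 1 H).filter (fun c : ℕ => ∃ t ∈ T, b ^ 2 - 4 * a * (c : ℤ) = t.1 * (t.2.1 : ℤ) ^ 2 * t.2.2) with hE
  refine ⟨E, ?_, ?_⟩
  · have h1 : #E ≤ #T := by
      have h2 : #E = #(E.image (fun c : ℕ => b ^ 2 - 4 * a * (c : ℤ))) := by
        rw [card_image_of_injective]
        intro c c' h
        simp only at h
        have h3 : 4 * a * ((c : ℤ) - c') = 0 := by linarith
        rcases mul_eq_zero.1 h3 with h4 | h4
        · omega
        · omega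
      rw [h2]
      calc #(E.image (fun c : ℕ => b ^ 2 - 4 * a * (c : ℤ))) ≤ #(T.image (fun t : ℤ × ℕ × ℕ => t.1 * (t.2.1 : ℤ) ^ 2 * t.2.2)) := by
            apply card_le_card
            intro y hy
            rw [mem_image] at hy ⊢
            obtain ⟨c, hc, rfl⟩ := hy
            rw [hE, mem_filter] at hc
            obtain ⟨-, t, ht, h3⟩ := hc
            exact ⟨t, ht, h3.symm⟩
        _ ≤ #T := card_image_le
    have h2 : #T = 4 * (Nat.sqrt Δ + 1) * #(BadK Δ i0 I) := by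
      rw [hT, card_product, card_product, card_range, show #({1, -1, 2, -2} : Finset ℤ) = 4 from rfl]
      ring
    calc (#E : ℝ) ≤ #T := by exact_mod_cast h1
      _ = 4 * (Nat.sqrt Δ + 1) * (#(BadK Δ i0 I) : ℝ) := by rw [h2]; push_cast; ring
      _ ≤ _ := mul_le_mul_of_nonneg_left (badK_card Δ i0 I m hi0 hm hΔ3) (by positivity)
  · intro c hc hcE hD0 i hi
    obtain ⟨δ, s, u, hu, hD, hδ1, hδ2⟩ := kernel _ hD0
    rw [mem_Icc] at hi
    refine block_bound _ Δ (hΔ c hc) δ s u hu hD0 hD hδ2 i (by omega) _ ?_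
    by_contra hcon
    push Not at hcon
    obtain ⟨r, hr, hrτ⟩ := hcon
    apply hcE
    rw [hE, mem_filter]
    refine ⟨hc, (u, s, δ), ?_, hD⟩
    have hab : (b ^ 2 - 4 * a * (c : ℤ)).natAbs = u.natAbs * s ^ 2 * δ := by
      rw [hD, Int.natAbs_mul, Int.natAbs_mul, Int.natAbs_pow]
      simp
    have hu1 : 1 ≤ u.natAbs := by
      simp only [mem_insert, mem_singleton] at hu
      rcases hu with rfl | rfl | rfl | rfl <;> norm_num
    have hδ0 : 1 ≤ δ := by omega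
    have hs0 : s ≠ 0 := by
      rintro rfl
      apply hD0; rw [hD]; simp
    have hle := hΔ c hc
    rw [hab] at hle
    rw [hT, mem_product, mem_product]
    refine ⟨hu, ?_, ?_⟩
    · rw [mem_range, Nat.lt_succ_iff, Nat.le_sqrt']
      calc s ^ 2 = 1 * s ^ 2 * 1 := by ring
        _ ≤ u.natAbs * s ^ 2 * δ := by gcongr
        _ ≤ Δ := hle
    · show δ ∈ BadK Δ i0 I
      rw [BadK, mem_filter, mem_range, Nat.lt_succ_iff]
      refine ⟨?_, hδ1, hδ2, i, mem_Icc.2 hi, r, hr, hrτ⟩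
      have hs1 : 1 ≤ s ^ 2 := Nat.one_le_pow _ _ (Nat.pos_of_ne_zero hs0)
      calc δ = 1 * 1 * δ := by ring
        _ ≤ u.natAbs * s ^ 2 * δ := by gcongr
        _ ≤ Δ := hle

end Pool.Agent.W468.ConjF
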