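import Mathlib
import Pool.Agent.H262R3.Lk.SWQ
import Pool.Agent.Helper919.Char

set_option autoImplicit false

/-!
Sums of `(D / p) / p` over large primes, uniformly for `|D|` up to a power of `log z`, from Siegel and Walfisz.
-/

namespace Pool.Agent.W468.ConjF
open Finset Filter Topology
open Pool.Agent.H262R3.Lk.SWQ Pool.Agent.Helper919

/-- a primitive character which agrees with the symbol -/
lemma exists_prim (D : ℤ) (hsq : ¬ IsSquare D) : ∃ q : ℕ, 1 < q ∧ q ≤ 4 * D.natAbs ∧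
    ∃ χ : DirichletCharacter ℂ q, χ.IsPrimitive ∧
      ∀ p : ℕ, p.Prime → 4 * D.natAbs < p → χ (p : ZMod q) = ((jacobiSym D p : ℤ) : ℂ) := by
  have hD : D ≠ 0 := by rintro rfl; exact hsq ⟨0, by simp⟩
  have hD' : 0 < D.natAbs := Int.natAbs_pos.2 hD
  have hne : NeZero (4 * D.natAbs) := ⟨by omega⟩
  set ψ := psi D hD with hψ
  have h1 : ψ ≠ 1 := psi_ne_one D hD hsq
  have hc0 : ψ.conductor ≠ 0 := by
    intro h
    have h2 := ψ.conductor_dvd_level
    rw [h] at h2
    have := Nat.eq_zero_of_zero_dvd h2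
    omega
  have hc1 : ψ.conductor ≠ 1 := by
    intro h
    exact h1 (DirichletCharacter.eq_one_iff_conductor_eq_one.2 h)
  refine ⟨ψ.conductor, by omega, Nat.le_of_dvd (by omega) ψ.conductor_dvd_level, ψ.primitiveCharacter,
    ψ.primitiveCharacter_isPrimitive, ?_⟩
  intro p hp hlt
  have hco : IsCoprime (p : ℤ) ((4 * D.natAbs : ℕ) : ℤ) := by
    rw [Nat.isCoprime_iff_coprime]
    rw [Nat.Prime.coprime_iff_not_dvd hp]
    intro hd
    have := Nat.le_of_dvd (by omega) hd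
    omega
  have h2 := ψ.primitiveCharacter_apply_of_isCoprime hco
  push_cast at h2
  rw [h2]
  have h3 := psi_apply D hD p
  rw [hψ, h3, XX_apply, if_pos (hp.odd_of_ne_two (by omega))]
  push_cast
  rfl

/-- the limit `σ → 0` of the weight -/
lemma fw_tendsto (n : ℕ) (hn : 2 ≤ n) : Tendsto (fun σ : ℝ => fw σ n) (𝓝[>] 0) (𝓝 (1 / (n * Real.log n))) := by
  have hn0 : (0 : ℝ) < n := by positivity
  have hl : 0 < Real.log n := Real.log_pos (by exact_mod_cast (by omega : 1 < n))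
  have h1 : ContinuousAt (fun σ : ℝ => fw σ n) 0 := by
    unfold fw
    apply ContinuousAt.div continuousAt_const
    · apply ContinuousAt.mul _ continuousAt_const
      apply ContinuousAt.rpow continuousAt_const
      · exact continuousAt_const.add continuousAt_id
      · left; exact hn0.ne'
    · positivity
  have h2 : fw 0 n = 1 / (n * Real.log n) := by
    unfold fw; rw [add_zero, Real.rpow_one]
  have h3 := h1.tendsto
  rw [h2] at h3
  exact h3.mono_left nhdsWithin_le_nhds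

theorem tail (B : ℕ) : ∃ n₁ : ℕ, ∀ z : ℕ, n₁ ≤ z → ∀ D : ℤ, ¬ IsSquare D → (4 * D.natAbs : ℝ) ≤ (Real.log z) ^ B →
    ∀ N : ℕ, z ≤ N → |∑ p ∈ (Ioc z N).filter Nat.Prime, (jacobiSym D p : ℝ) / p| ≤ 140 / Real.log ((z : ℝ) - 1) := by
  obtain ⟨n₁, hn₁⟩ := SS_bound B
  have hlog : ∀ᶠ x : ℝ in atTop, (Real.log x) ^ B ≤ x := by
    have := (isLittleO_log_rpow_atTop (show (0 : ℝ) < 1 / (B + 1) by positivity)).bound (show (0 : ℝ) < 1 by norm_num)
    filter_upwards [this, eventually_ge_atTop 1] with x hx hx1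
    have hl : 0 ≤ Real.log x := Real.log_nonneg hx1
    rw [Real.norm_of_nonneg hl, Real.norm_of_nonneg (by positivity), one_mul] at hx
    calc (Real.log x) ^ B ≤ (x ^ (1 / ((B : ℝ) + 1))) ^ B := pow_le_pow_left₀ hl hx B
      _ = x ^ ((1 / ((B : ℝ) + 1)) * B) := by rw [← Real.rpow_natCast, ← Real.rpow_mul (by linarith)]
      _ ≤ x ^ (1 : ℝ) := by
          apply Real.rpow_le_rpow_of_exponent_le hx1
          rw [div_mul_eq_mul_div, one_mul, div_le_one (by positivity)]
          linarith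
      _ = x := Real.rpow_one x
  obtain ⟨x₀, hx₀⟩ := eventually_atTop.1 hlog
  refine ⟨max (max n₁ 4) ⌈x₀⌉₊, fun z hz D hsq hDz N hzN => ?_⟩
  have hz1 : n₁ ≤ z := ((le_max_left _ _).trans (le_max_left _ _)).trans hz
  have hz4 : 4 ≤ z := ((le_max_right _ _).trans (le_max_left _ _)).trans hz
  have hzx : x₀ ≤ z := (Nat.le_ceil _).trans (by exact_mod_cast (le_max_right _ _).trans hz)
  obtain ⟨q, hq1, hqD, χ, hχ, hval⟩ := exists_prim D hsq
  have hDz' : 4 * D.natAbs ≤ z := by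
    have h1 : (4 * D.natAbs : ℝ) ≤ z := hDz.trans (hx₀ z hzx)
    exact_mod_cast h1
  have hz0 : (4 : ℝ) ≤ z := by exact_mod_cast hz4
  have ha : ∀ n, z ≤ n → ‖∑ k ∈ Icc 1 n, av χ k‖ ≤ 20 * n / (Real.log n) ^ 2 := by
    intro n hn
    have hzn : (z : ℝ) ≤ n := by exact_mod_cast hn
    refine hn₁ n (hz1.trans hn) q hq1 ?_ χ hχ
    calc (q : ℝ) ≤ (4 * D.natAbs : ℝ) := by exact_mod_cast hqD
      _ ≤ (Real.log z) ^ B := hDz
      _ ≤ (Real.log n) ^ B := by
          apply pow_le_pow_left₀ (Real.log_nonneg (by linarith))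
          exact Real.log_le_log (by linarith) hzn
  have hb : ∀ σ : ℝ, 0 < σ → σ ≤ 1 → ‖∑ n ∈ Ioc z N, av χ n * (fw σ n : ℂ)‖ ≤ 7 * 20 / Real.log ((z : ℝ) - 1) :=
    fun σ h0 h1 => partial_bound hz4 (by norm_num) h0 h1 ha hzN
  have hlim : Tendsto (fun σ : ℝ => ‖∑ n ∈ Ioc z N, av χ n * (fw σ n : ℂ)‖) (𝓝[>] 0)
      (𝓝 ‖∑ n ∈ Ioc z N, av χ n * (((1 / (n * Real.log n) : ℝ)) : ℂ)‖) := by
    apply Tendsto.norm
    apply tendsto_finsetSum
    intro n hn
    rw [mem_Ioc] at hn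
    apply Tendsto.const_mul
    exact (Complex.continuous_ofReal.tendsto _).comp (fw_tendsto n (by omega))
  have hle := le_of_tendsto hlim (by
    filter_upwards [Ioc_mem_nhdsGT (show (0 : ℝ) < 1 by norm_num)] with σ hσ
    exact hb σ hσ.1 hσ.2)
  have heq : ∑ n ∈ Ioc z N, av χ n * (((1 / (n * Real.log n) : ℝ)) : ℂ) =
      ((∑ p ∈ (Ioc z N).filter Nat.Prime, (jacobiSym D p : ℝ) / p : ℝ) : ℂ) := by
    rw [sum_filter, Complex.ofReal_sum]
    apply sum_congr rfl
    intro n hn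
    rw [mem_Ioc] at hn
    unfold av
    by_cases hp : n.Prime
    · rw [if_pos hp, if_pos hp, hval n hp (by omega)]
      have hl : Real.log n ≠ 0 := by
        have := Real.log_pos (show (1 : ℝ) < n by exact_mod_cast hp.one_lt)
        exact this.ne'
      have hn0 : (n : ℝ) ≠ 0 := by
        have := hp.ne_zero
        exact_mod_cast this
      have h1 : ((jacobiSym D n : ℝ) / n) = (jacobiSym D n : ℝ) * Real.log n * (1 / (n * Real.log n)) := by
        field_simp
      rw [h1, Complex.ofReal_mul, Complex.ofReal_mul, Complex.ofReal_intCast]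
    · rw [if_neg hp, if_neg hp, zero_mul, Complex.ofReal_zero]
  rw [heq, Complex.norm_real, Real.norm_eq_abs] at hle
  refine hle.trans (le_of_eq ?_)
  norm_num

end Pool.Agent.W468.ConjF
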