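import Mathlib
import Pool.Agent.H373R2.BH.Defs

set_option autoImplicit false

/-!
Hardy and Littlewood's Conjecture F: notation, and the Euler product of a quadratic polynomial.
-/

namespace Pool.Agent.W468.ConjF
open Finset Polynomial Pool.Agent.H373R2.BH

/-- the triple `(a, b, c)` is admissible -/
def Admissible (a b c : ℤ) : Prop :=
  0 < a ∧ (∀ d : ℤ, d ∣ a → d ∣ b → d ∣ c → IsUnit d) ∧ ¬ ((2 : ℤ) ∣ a + b ∧ (2 : ℤ) ∣ c) ∧
    ¬ IsSquare (b ^ 2 - 4 * a * c)

/-- `π_f(x)` for `f(t) = a t^2 + b t + c` -/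
def piF (a b c : ℤ) (x : ℕ) : ℕ := #((Icc 1 x).filter (fun t : ℕ => (a * (t : ℤ) ^ 2 + b * t + c).toNat.Prime))

/-- the constant `C(a, b, c)` of Conjecture F, cut at `z` -/
noncomputable def CF (a b c : ℤ) (z : ℕ) : ℝ :=
  (if (2 : ℤ) ∣ a + b then 1 else 1 / 2) *
  (∏ p ∈ (range (z + 1)).filter (fun p : ℕ => p.Prime ∧ 3 ≤ p ∧ (p : ℤ) ∣ a ∧ (p : ℤ) ∣ b), (p : ℝ) / (p - 1)) *
  ∏ p ∈ (range (z + 1)).filter (fun p : ℕ => p.Prime ∧ 3 ≤ p ∧ ¬ (p : ℤ) ∣ a),
    (1 - (jacobiSym (b ^ 2 - 4 * a * c) p : ℝ) / (p - 1))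

/-- the polynomial `a X^2 + b X + c` -/
noncomputable def P (a b c : ℤ) : ℤ[X] := C a * X ^ 2 + C b * X + C c

lemma eval_P (a b c t : ℤ) : (P a b c).eval t = a * t ^ 2 + b * t + c := by
  simp [P]

lemma natDegree_P (a b c : ℤ) (ha : 0 < a) : (P a b c).natDegree = 2 :=
  natDegree_quadratic ha.ne'

lemma leadingCoeff_P (a b c : ℤ) (ha : 0 < a) : (P a b c).leadingCoeff = a :=
  leadingCoeff_quadratic ha.ne'

/-- an irreducible quadratic without fixed divisor is admissible -/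
lemma admissible_of (a b c : ℤ) (ha : 0 < a) (hi : Irreducible (P a b c))
    (h2 : ∃ n : ℤ, ¬ (2 : ℤ) ∣ (P a b c).eval n) : Admissible a b c := by
  have hdeg := natDegree_P a b c ha
  refine ⟨ha, ?_, ?_, ?_⟩
  · rintro d ⟨a', rfl⟩ ⟨b', rfl⟩ ⟨c', rfl⟩
    have h : P (d * a') (d * b') (d * c') = C d * P a' b' c' := by
      simp only [P, C_mul]; ring
    rw [h] at hi
    rcases hi.isUnit_or_isUnit rfl with hu | hu
    · exact isUnit_C.1 hu
    · exfalso
      have h3 : (P a' b' c').natDegree = 0 := natDegree_eq_zero_of_isUnit hu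
      rw [h] at hdeg
      have h4 := natDegree_C_mul_le d (P a' b' c')
      omega
  · rintro ⟨h3, h4⟩
    obtain ⟨n, hn⟩ := h2
    apply hn
    rw [eval_P]
    have h5 : a * n ^ 2 + b * n + c = (a + b) * n + c + a * (n ^ 2 - n) := by ring
    rw [h5]
    refine dvd_add (dvd_add (Dvd.dvd.mul_right h3 n) h4) (Dvd.dvd.mul_left ?_ a)
    have h6 : n ^ 2 - n = n * (n - 1) := by ring
    rw [h6]
    rcases Int.even_or_odd n with ⟨k, hk⟩ | ⟨k, hk⟩
    · exact Dvd.dvd.mul_right ⟨k, by rw [hk]; ring⟩ _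
    · exact Dvd.dvd.mul_left ⟨k, by rw [hk]; ring⟩ _
  · rintro ⟨m, hm⟩
    have hp : Prime (P a b c) := hi.prime
    have h3 : C (4 * a) * P a b c = (C (2 * a) * X + C (b - m)) * (C (2 * a) * X + C (b + m)) := by
      have h4 : (C (4 * a * c) : ℤ[X]) = C (b - m) * C (b + m) := by
        rw [← C_mul]; congr 1; linarith
      have h5 : C (4 * a) * P a b c = C (4 * a * a) * X ^ 2 + C (4 * a * b) * X + C (4 * a * c) := by
        simp only [P, C_mul]; ring
      rw [h5, h4]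
      simp only [C_mul, C_add, C_sub]
      have h6 : (C (4 : ℤ) : ℤ[X]) = 4 := rfl
      have h7 : (C (2 : ℤ) : ℤ[X]) = 2 := rfl
      rw [h6, h7]; ring
    have h4 : P a b c ∣ (C (2 * a) * X + C (b - m)) * (C (2 * a) * X + C (b + m)) := ⟨C (4 * a), by rw [← h3]; ring⟩
    have key : ∀ e : ℤ, ¬ P a b c ∣ C (2 * a) * X + C e := by
      intro e he
      have h5 : (C (2 * a) * X + C e : ℤ[X]).natDegree = 1 := natDegree_linear (by positivity)
      have h6 : (C (2 * a) * X + C e : ℤ[X]) ≠ 0 := by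
        intro h0; rw [h0] at h5; simp at h5
      have := natDegree_le_of_dvd he h6
      omega
    rcases hp.dvd_or_dvd h4 with h5 | h5
    · exact key _ h5
    · exact key _ h5

section Roots

/-- the number of roots of the quadratic modulo `p` -/
noncomputable def nr (a b c : ℤ) (p : ℕ) : ℕ := #((range p).filter (fun r : ℕ => (p : ℤ) ∣ a * (r : ℤ) ^ 2 + b * r + c))

lemma nr_eq_card (a b c : ℤ) (p : ℕ) [NeZero p] :
    nr a b c p = #((univ : Finset (ZMod p)).filter (fun y => (a : ZMod p) * y ^ 2 + b * y + c = 0)) := by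
  classical
  unfold nr
  apply card_bij (fun (r : ℕ) _ => (r : ZMod p))
  · intro r hr
    rw [mem_filter] at hr ⊢
    refine ⟨mem_univ _, ?_⟩
    have := (ZMod.intCast_zmod_eq_zero_iff_dvd _ p).2 hr.2
    push_cast at this
    exact this
  · intro r hr s hs hrs
    rw [mem_filter, mem_range] at hr hs
    have := (ZMod.natCast_eq_natCast_iff' r s p).1 hrs
    rwa [Nat.mod_eq_of_lt hr.1, Nat.mod_eq_of_lt hs.1] at this
  · intro y hy
    rw [mem_filter] at hy
    refine ⟨y.val, ?_, ZMod.natCast_zmod_val y⟩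
    rw [mem_filter, mem_range]
    refine ⟨ZMod.val_lt y, ?_⟩
    rw [← ZMod.intCast_zmod_eq_zero_iff_dvd]
    push_cast
    rw [ZMod.natCast_zmod_val]
    exact hy.2

/-- `p` odd not dividing `a`: one plus the symbol -/
lemma nr_odd (a b c : ℤ) (p : ℕ) (hp : p.Prime) (hp3 : 3 ≤ p) (ha : ¬ (p : ℤ) ∣ a) :
    (nr a b c p : ℤ) = jacobiSym (b ^ 2 - 4 * a * c) p + 1 := by
  classical
  have : Fact p.Prime := ⟨hp⟩
  have hp2 : p ≠ 2 := by omega
  rw [← jacobiSym.legendreSym.to_jacobiSym, ← legendreSym.card_sqrts p hp2, nr_eq_card]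
  have ha' : (a : ZMod p) ≠ 0 := by
    rw [Ne, ZMod.intCast_zmod_eq_zero_iff_dvd]; exact ha
  have h2' : (2 : ZMod p) ≠ 0 := by
    intro h
    have : ((2 : ℕ) : ZMod p) = 0 := by exact_mod_cast h
    rw [ZMod.natCast_eq_zero_iff] at this
    have := Nat.le_of_dvd (by norm_num) this
    omega
  have h2a : (2 * a : ZMod p) ≠ 0 := mul_ne_zero h2' ha'
  congr 1
  apply card_bij (fun (y : ZMod p) _ => 2 * (a : ZMod p) * y + b)
  · intro y hy
    rw [mem_filter] at hy
    simp only [Set.mem_toFinset, Set.mem_ofPred_eq]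
    push_cast
    have h3 : (2 * (a : ZMod p) * y + b) ^ 2 = (b : ZMod p) ^ 2 - 4 * a * c + 4 * a * (a * y ^ 2 + b * y + c) := by ring
    rw [h3, hy.2, mul_zero, add_zero]
  · intro y _ y' _ h
    have : 2 * (a : ZMod p) * y = 2 * (a : ZMod p) * y' := add_right_cancel h
    exact mul_left_cancel₀ h2a this
  · intro w hw
    simp only [Set.mem_toFinset, Set.mem_ofPred_eq] at hw
    push_cast at hw
    refine ⟨(w - b) * (2 * (a : ZMod p))⁻¹, ?_, ?_⟩
    · rw [mem_filter]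
      refine ⟨mem_univ _, ?_⟩
      have h4 : (4 * a : ZMod p) ≠ 0 := by
        have : (4 * a : ZMod p) = 2 * (2 * a) := by ring
        rw [this]; exact mul_ne_zero h2' h2a
      apply mul_left_cancel₀ h4
      rw [mul_zero]
      have h5 : 2 * (a : ZMod p) * ((w - b) * (2 * (a : ZMod p))⁻¹) = w - b := by
        field_simp
      calc (4 * a : ZMod p) * (a * ((w - b) * (2 * (a : ZMod p))⁻¹) ^ 2 + b * ((w - b) * (2 * (a : ZMod p))⁻¹) + c)
          = (2 * (a : ZMod p) * ((w - b) * (2 * (a : ZMod p))⁻¹) + b) ^ 2 - (b ^ 2 - 4 * a * c) := by ring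
        _ = 0 := by rw [h5, ← hw]; ring
    · field_simp
      ring

lemma nr_lin (a b c : ℤ) (p : ℕ) (hp : p.Prime) (ha : (p : ℤ) ∣ a) (hb : ¬ (p : ℤ) ∣ b) :
    nr a b c p = 1 := by
  classical
  have : Fact p.Prime := ⟨hp⟩
  rw [nr_eq_card]
  have ha' : (a : ZMod p) = 0 := (ZMod.intCast_zmod_eq_zero_iff_dvd _ _).2 ha
  have hb' : (b : ZMod p) ≠ 0 := by
    rw [Ne, ZMod.intCast_zmod_eq_zero_iff_dvd]; exact hb
  rw [card_eq_one]
  refine ⟨-c * (b : ZMod p)⁻¹, ?_⟩
  ext y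
  simp only [mem_filter, mem_univ, true_and, mem_singleton, ha', zero_mul, zero_add]
  constructor
  · intro h
    have : (b : ZMod p) * y = -c := by linear_combination h
    rw [← this]; field_simp
  · rintro rfl
    field_simp
    ring

lemma nr_none (a b c : ℤ) (p : ℕ) (ha : (p : ℤ) ∣ a) (hb : (p : ℤ) ∣ b) (hc : ¬ (p : ℤ) ∣ c) :
    nr a b c p = 0 := by
  unfold nr
  rw [card_eq_zero, filter_eq_empty_iff]
  intro r _ h
  apply hc
  have h1 : (p : ℤ) ∣ a * (r : ℤ) ^ 2 + b * r := dvd_add (Dvd.dvd.mul_right ha _) (Dvd.dvd.mul_right hb _)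
  exact (dvd_add_right h1).1 h

lemma nr_two (a b c : ℤ) (h : ¬ ((2 : ℤ) ∣ a + b ∧ (2 : ℤ) ∣ c)) :
    nr a b c 2 = if (2 : ℤ) ∣ a + b then 0 else 1 := by
  classical
  unfold nr
  have e : range 2 = {0, 1} := rfl
  rw [e]
  have h0 : ((2 : ℕ) : ℤ) ∣ a * ((0 : ℕ) : ℤ) ^ 2 + b * ((0 : ℕ) : ℤ) + c ↔ (2 : ℤ) ∣ c := by simp
  have h1 : ((2 : ℕ) : ℤ) ∣ a * ((1 : ℕ) : ℤ) ^ 2 + b * ((1 : ℕ) : ℤ) + c ↔ (2 : ℤ) ∣ a + b + c := by simp
  split_ifs with hab
  · have hc : ¬ (2 : ℤ) ∣ c := fun hc => h ⟨hab, hc⟩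
    rw [card_eq_zero, filter_eq_empty_iff]
    intro r hr
    simp only [mem_insert, mem_singleton] at hr
    rcases hr with rfl | rfl
    · rw [h0]; exact hc
    · rw [h1]; intro h2; exact hc ((dvd_add_right hab).1 h2)
  · by_cases hc : (2 : ℤ) ∣ c
    · have hn : ¬ (2 : ℤ) ∣ a + b + c := fun h2 => hab ((dvd_add_left hc).1 h2)
      have : ({0, 1} : Finset ℕ).filter (fun r : ℕ => ((2 : ℕ) : ℤ) ∣ a * (r : ℤ) ^ 2 + b * r + c) = {0} := by
        ext r
        simp only [mem_filter, mem_insert, mem_singleton]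
        constructor
        · rintro ⟨rfl | rfl, h2⟩
          · rfl
          · exact absurd (h1.1 h2) hn
        · rintro rfl; exact ⟨Or.inl rfl, h0.2 hc⟩
      rw [this, card_singleton]
    · have hn : (2 : ℤ) ∣ a + b + c := by omega
      have : ({0, 1} : Finset ℕ).filter (fun r : ℕ => ((2 : ℕ) : ℤ) ∣ a * (r : ℤ) ^ 2 + b * r + c) = {1} := by
        ext r
        simp only [mem_filter, mem_insert, mem_singleton]
        constructor
        · rintro ⟨rfl | rfl, h2⟩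
          · exact absurd (h0.1 h2) hc
          · rfl
        · rintro rfl; exact ⟨Or.inr rfl, h1.2 hn⟩
      rw [this, card_singleton]

end Roots

/-- the Euler product of Bateman and Horn is twice the constant of Conjecture F -/
theorem euler_eq (a b c : ℤ) (h : Admissible a b c) (z : ℕ) (hz : 2 ≤ z) (F : Fin 1 → ℤ[X])
    (hF : ∀ i, F i = P a b c) : eulerProduct F z = 2 * CF a b c z := by
  classical
  obtain ⟨ha, hg, h2, -⟩ := h
  have hom : ∀ p, omegaP F p = nr a b c p := by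
    intro p
    unfold omegaP nr
    congr 1
    apply filter_congr
    intro r _
    simp only [hF, eval_P, exists_const]
  have hprime : ∀ p : ℕ, p.Prime → (p : ℤ) ∣ a → (p : ℤ) ∣ b → ¬ (p : ℤ) ∣ c := by
    intro p hp h3 h4 h5
    have := hg _ h3 h4 h5
    rw [Int.isUnit_iff] at this
    have := hp.two_le
    omega
  unfold eulerProduct
  simp only [hom, pow_one]
  set S := (range (z + 1)).filter Nat.Prime with hS
  have h2S : 2 ∈ S := by
    rw [hS, mem_filter, mem_range]; exact ⟨by omega, Nat.prime_two⟩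
  set S3 := S.filter (fun p => 3 ≤ p) with hS3
  have hSplit : S = insert 2 S3 := by
    ext p
    simp only [hS3, mem_insert, mem_filter]
    constructor
    · intro hp
      by_cases h3 : 3 ≤ p
      · exact Or.inr ⟨hp, h3⟩
      · left
        have : p.Prime := (mem_filter.1 hp).2
        have := this.two_le
        omega
    · rintro (rfl | hp)
      · exact h2S
      · exact hp.1
  have hn2 : 2 ∉ S3 := by
    rw [hS3, mem_filter]; omega
  rw [hSplit, prod_insert hn2]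
  -- the factors at odd primes
  have fac : ∀ p ∈ S3, ((1 - 1 / (p : ℝ)))⁻¹ * (1 - (nr a b c p : ℝ) / p) =
      (if (p : ℤ) ∣ a ∧ (p : ℤ) ∣ b then (p : ℝ) / (p - 1) else 1) *
      (if ¬ (p : ℤ) ∣ a then 1 - (jacobiSym (b ^ 2 - 4 * a * c) p : ℝ) / (p - 1) else 1) := by
    intro p hp
    rw [hS3, mem_filter, hS, mem_filter] at hp
    obtain ⟨⟨-, hpp⟩, hp3⟩ := hp
    have hpr : (1 : ℝ) < p := by exact_mod_cast hpp.one_lt
    have hp0 : (p : ℝ) ≠ 0 := by positivity
    have hp1 : (p : ℝ) - 1 ≠ 0 := by linarith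
    by_cases hpa : (p : ℤ) ∣ a
    · by_cases hpb : (p : ℤ) ∣ b
      · rw [if_pos ⟨hpa, hpb⟩, if_neg (not_not.2 hpa), nr_none a b c p hpa hpb (hprime p hpp hpa hpb)]
        simp only [Nat.cast_zero, zero_div, sub_zero, mul_one]
        field_simp
      · rw [if_neg (fun h => hpb h.2), if_neg (not_not.2 hpa), nr_lin a b c p hpp hpa hpb]
        simp only [Nat.cast_one, mul_one]
        field_simp
    · rw [if_neg (fun h => hpa h.1), if_pos hpa]
      have h3 := nr_odd a b c p hpp hp3 hpa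
      have h4 : (nr a b c p : ℝ) = (jacobiSym (b ^ 2 - 4 * a * c) p : ℝ) + 1 := by exact_mod_cast h3
      rw [h4]
      field_simp
      ring
  rw [prod_congr rfl fac, prod_mul_distrib]
  have e1 : ∏ p ∈ S3, (if (p : ℤ) ∣ a ∧ (p : ℤ) ∣ b then (p : ℝ) / (p - 1) else 1) =
      ∏ p ∈ (range (z + 1)).filter (fun p : ℕ => p.Prime ∧ 3 ≤ p ∧ (p : ℤ) ∣ a ∧ (p : ℤ) ∣ b), (p : ℝ) / (p - 1) := by
    rw [← prod_filter, hS3, hS, filter_filter, filter_filter]
  have e2 : ∏ p ∈ S3, (if ¬ (p : ℤ) ∣ a then 1 - (jacobiSym (b ^ 2 - 4 * a * c) p : ℝ) / (p - 1) else 1) =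
      ∏ p ∈ (range (z + 1)).filter (fun p : ℕ => p.Prime ∧ 3 ≤ p ∧ ¬ (p : ℤ) ∣ a),
        (1 - (jacobiSym (b ^ 2 - 4 * a * c) p : ℝ) / (p - 1)) := by
    rw [← prod_filter, hS3, hS, filter_filter, filter_filter]
  rw [e1, e2, nr_two a b c h2]
  unfold CF
  split_ifs with hab
  · push_cast; ring
  · push_cast; ring

lemma primeCount_eq (a b c : ℤ) (x : ℕ) (F : Fin 1 → ℤ[X]) (hF : ∀ i, F i = P a b c) :
    primeCount F x = piF a b c x := by
  classical
  unfold primeCount piF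
  congr 1
  apply filter_congr
  intro n _
  simp only [hF, eval_P, forall_const]

end Pool.Agent.W468.ConjF
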