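import Mathlib
import Pool.Agent.W468.ConjFDefs
import Pool.Agent.W468.CFTail
import Pool.Agent.W468.CFLow

set_option autoImplicit false

/-!
The constant of Conjecture F: convergence, and the error of cutting the product.
-/

namespace Pool.Agent.W468.ConjF
open Finset Filter Topology

/-- the sum over primes in `(z, N]` -/
noncomputable def SJ (D : ℤ) (z N : ℕ) : ℝ := ∑ p ∈ (Ioc z N).filter Nat.Prime, (jacobiSym D p : ℝ) / p

/-- the product over primes in `(z, N]` -/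
noncomputable def PJ (D : ℤ) (z N : ℕ) : ℝ := ∏ p ∈ (Ioc z N).filter Nat.Prime, (1 - (jacobiSym D p : ℝ) / (p - 1))

lemma factor_pos (D : ℤ) (p : ℕ) (hp : 3 ≤ p) : 0 < 1 - (jacobiSym D p : ℝ) / (p - 1) := by
  have hp3 : (3 : ℝ) ≤ p := by exact_mod_cast hp
  have h1 := js_abs D p
  have h2 : (jacobiSym D p : ℝ) / (p - 1) ≤ 1 / 2 := by
    rw [div_le_div_iff₀ (by linarith) (by norm_num)]
    have := (abs_le.1 h1).2
    linarith
  linarith

lemma PJ_pos (D : ℤ) (z N : ℕ) (hz : 2 ≤ z) : 0 < PJ D z N := by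
  unfold PJ
  apply prod_pos
  intro p hp
  rw [mem_filter, mem_Ioc] at hp
  exact factor_pos D p (by omega)

lemma sum_inv_mul (z N : ℕ) (hz : 1 ≤ z) (h : z ≤ N) :
    ∑ n ∈ Ioc z N, 1 / ((n : ℝ) * (n - 1)) ≤ 1 / (z : ℝ) - 1 / (N : ℝ) := by
  induction N, h using Nat.le_induction with
  | base => simp
  | succ Z hZ ih =>
    rw [← Finset.insert_Ioc_right_eq_Ioc_add_one hZ, Finset.sum_insert (by simp)]
    have hZ0 : (0 : ℝ) < Z := by exact_mod_cast (by omega : 0 < Z)
    have h1 : 1 / (((Z + 1 : ℕ) : ℝ) * (((Z + 1 : ℕ) : ℝ) - 1)) = 1 / (Z : ℝ) - 1 / ((Z + 1 : ℕ) : ℝ) := by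
      push_cast
      rw [add_sub_cancel_right]
      field_simp
      ring
    linarith

lemma PJ_le (D : ℤ) (z N : ℕ) (hz : 2 ≤ z) (hN : z ≤ N) : PJ D z N ≤ Real.exp (|SJ D z N| + 1 / z) := by
  have h1 : PJ D z N ≤ ∏ p ∈ (Ioc z N).filter Nat.Prime, Real.exp (-((jacobiSym D p : ℝ) / p) + 1 / ((p : ℝ) * (p - 1))) := by
    unfold PJ
    apply Finset.prod_le_prod
    · intro p hp
      rw [mem_filter, mem_Ioc] at hp
      exact (factor_pos D p (by omega)).le
    · intro p hp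
      rw [mem_filter, mem_Ioc] at hp
      have hp3 : (3 : ℝ) ≤ p := by exact_mod_cast (by omega : 3 ≤ p)
      have h2 := Real.add_one_le_exp (-((jacobiSym D p : ℝ) / (p - 1)))
      refine le_trans (by linarith) (h2.trans (Real.exp_le_exp.2 ?_))
      have h3 : (jacobiSym D p : ℝ) / (p - 1) = (jacobiSym D p : ℝ) / p + (jacobiSym D p : ℝ) / (p * (p - 1)) := by
        have : (p : ℝ) - 1 ≠ 0 := by linarith
        field_simp
        ring
      rw [h3]
      have h4 : -(1 / ((p : ℝ) * (p - 1))) ≤ (jacobiSym D p : ℝ) / (p * (p - 1)) := by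
        rw [← neg_div]
        apply div_le_div_of_nonneg_right (abs_le.1 (js_abs D p)).1
        apply mul_nonneg <;> linarith
      linarith
  refine h1.trans ?_
  rw [← Real.exp_sum]
  apply Real.exp_le_exp.2
  rw [sum_add_distrib, sum_neg_distrib]
  have h5 : ∑ p ∈ (Ioc z N).filter Nat.Prime, 1 / ((p : ℝ) * (p - 1)) ≤ 1 / z := by
    calc ∑ p ∈ (Ioc z N).filter Nat.Prime, 1 / ((p : ℝ) * (p - 1)) ≤ ∑ p ∈ Ioc z N, 1 / ((p : ℝ) * (p - 1)) := by
          apply sum_le_sum_of_subset_of_nonneg (filter_subset _ _)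
          intro p hp _
          rw [mem_Ioc] at hp
          have hp3 : (3 : ℝ) ≤ p := by exact_mod_cast (by omega : 3 ≤ p)
          apply div_nonneg zero_le_one
          apply mul_nonneg <;> linarith
      _ ≤ 1 / (z : ℝ) - 1 / (N : ℝ) := sum_inv_mul z N (by omega) hN
      _ ≤ 1 / (z : ℝ) := by
          have : (0 : ℝ) ≤ 1 / (N : ℝ) := by positivity
          linarith
  have h6 : -∑ p ∈ (Ioc z N).filter Nat.Prime, (jacobiSym D p : ℝ) / p ≤ |SJ D z N| := neg_le_abs _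
  linarith

/-- cutting the product -/
lemma CF_split (a b c : ℤ) (ha : 0 < a) (z N : ℕ) (hz : 2 ≤ z) (haz : a ≤ z) (hN : z ≤ N) :
    CF a b c N = CF a b c z * PJ (b ^ 2 - 4 * a * c) z N := by
  have hnd : ∀ p : ℕ, z < p → ¬ (p : ℤ) ∣ a := by
    intro p hp hd
    have := Int.le_of_dvd ha hd
    omega
  unfold CF PJ
  have e1 : (range (N + 1)).filter (fun p : ℕ => p.Prime ∧ 3 ≤ p ∧ (p : ℤ) ∣ a ∧ (p : ℤ) ∣ b) =
      (range (z + 1)).filter (fun p : ℕ => p.Prime ∧ 3 ≤ p ∧ (p : ℤ) ∣ a ∧ (p : ℤ) ∣ b) := by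
    ext p
    simp only [mem_filter, mem_range]
    constructor
    · rintro ⟨-, h1, h2, h3, h4⟩
      refine ⟨?_, h1, h2, h3, h4⟩
      by_contra h5
      exact hnd p (by omega) h3
    · rintro ⟨h0, h1, h2, h3, h4⟩
      exact ⟨by omega, h1, h2, h3, h4⟩
  have e2 : (range (N + 1)).filter (fun p : ℕ => p.Prime ∧ 3 ≤ p ∧ ¬ (p : ℤ) ∣ a) =
      (range (z + 1)).filter (fun p : ℕ => p.Prime ∧ 3 ≤ p ∧ ¬ (p : ℤ) ∣ a) ∪ (Ioc z N).filter Nat.Prime := by
    ext p
    simp only [mem_filter, mem_range, mem_union, mem_Ioc]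
    constructor
    · rintro ⟨h0, h1, h2, h3⟩
      by_cases h4 : p < z + 1
      · exact Or.inl ⟨h4, h1, h2, h3⟩
      · exact Or.inr ⟨by omega, h1⟩
    · rintro (⟨h0, h1, h2, h3⟩ | ⟨h0, h1⟩)
      · exact ⟨by omega, h1, h2, h3⟩
      · exact ⟨by omega, h1, by omega, hnd p h0.1⟩
  have e3 : Disjoint ((range (z + 1)).filter (fun p : ℕ => p.Prime ∧ 3 ≤ p ∧ ¬ (p : ℤ) ∣ a)) ((Ioc z N).filter Nat.Prime) := by
    rw [Finset.disjoint_left]
    intro p h1 h2
    simp only [mem_filter, mem_range, mem_Ioc] at h1 h2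
    omega
  rw [e1, e2, prod_union e3]
  ring

lemma CF_pos (a b c : ℤ) (z : ℕ) : 0 < CF a b c z := by
  unfold CF
  apply mul_pos
  · apply mul_pos
    · split_ifs <;> norm_num
    · apply prod_pos
      intro p hp
      rw [mem_filter] at hp
      have hp3 : (3 : ℝ) ≤ p := by exact_mod_cast hp.2.2.1
      apply div_pos <;> linarith
  · apply prod_pos
    intro p hp
    rw [mem_filter] at hp
    exact factor_pos _ p hp.2.2.1

/-- the sums converge -/
lemma SJ_cauchy (D : ℤ) (hD : ¬ IsSquare D) (z : ℕ) : ∃ L : ℝ, Tendsto (fun N => SJ D z N) atTop (𝓝 L) := by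
  have hsplit : ∀ m n : ℕ, z ≤ m → m ≤ n → SJ D z n = SJ D z m + SJ D m n := by
    intro m n h1 h2
    unfold SJ
    rw [sum_filter, sum_filter, sum_filter, sum_Ioc_consecutive _ h1 h2]
  obtain ⟨n₁, hn₁⟩ := tail 1
  have hlog : Tendsto (fun n : ℕ => Real.log n) atTop atTop := Real.tendsto_log_atTop.comp tendsto_natCast_atTop_atTop
  have hlog2 : Tendsto (fun n : ℕ => 140 / Real.log ((n : ℝ) - 1)) atTop (𝓝 0) := by
    apply Tendsto.div_atTop tendsto_const_nhds
    apply Real.tendsto_log_atTop.comp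
    exact tendsto_atTop_add_const_right _ (-1) tendsto_natCast_atTop_atTop
  apply cauchySeq_tendsto_of_complete
  rw [Metric.cauchySeq_iff']
  intro ε hε
  have hev : ∀ᶠ n : ℕ in atTop, 140 / Real.log ((n : ℝ) - 1) < ε ∧ (4 * D.natAbs : ℝ) ≤ Real.log n ∧ n₁ ≤ n ∧ z ≤ n := by
    filter_upwards [hlog2.eventually (gt_mem_nhds hε), hlog.eventually_ge_atTop (4 * D.natAbs : ℝ),
      eventually_ge_atTop n₁, eventually_ge_atTop z] with n h1 h2 h3 h4
    exact ⟨h1, h2, h3, h4⟩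
  obtain ⟨m, h1, h2, h3, h4⟩ := hev.exists
  refine ⟨m, fun n hn => ?_⟩
  rw [Real.dist_eq, hsplit m n h4 hn, add_sub_cancel_left]
  refine lt_of_le_of_lt (hn₁ m h3 D hD (by simpa using h2) n hn) h1

/-- the products converge to a positive number -/
lemma PJ_tendsto (D : ℤ) (hD : ¬ IsSquare D) (z : ℕ) (hz : 2 ≤ z) :
    ∃ L : ℝ, 0 < L ∧ Tendsto (fun N => PJ D z N) atTop (𝓝 L) := by
  obtain ⟨L, hL⟩ := SJ_cauchy D hD z
  -- the difference converges absolutely
  set g : ℕ → ℝ := fun n => if n.Prime ∧ z < n then Real.log (1 - (jacobiSym D n : ℝ) / (n - 1)) + (jacobiSym D n : ℝ) / n else 0 with hg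
  have hgb : ∀ n, ‖g n‖ ≤ 12 / (n : ℝ) ^ 2 := by
    intro n
    rw [hg]
    simp only
    split_ifs with h
    · obtain ⟨h1, h2⟩ := h
      have hn3 : (3 : ℝ) ≤ n := by exact_mod_cast (by omega : 3 ≤ n)
      set j : ℝ := (jacobiSym D n : ℝ) with hj
      have hj1 : |j| ≤ 1 := js_abs D n
      have hx : |j / ((n : ℝ) - 1)| ≤ 1 / 2 := by
        rw [abs_div, abs_of_pos (show (0 : ℝ) < (n : ℝ) - 1 by linarith)]
        rw [div_le_div_iff₀ (by linarith) (by norm_num)]
        linarith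
      have h3 := Real.abs_log_sub_add_sum_range_le (show |j / ((n : ℝ) - 1)| < 1 by linarith) 1
      simp only [range_one, sum_singleton, zero_add, pow_one, Nat.cast_zero, div_one] at h3
      have h4 : |j / ((n : ℝ) - 1)| ^ (1 + 1) / (1 - |j / ((n : ℝ) - 1)|) ≤ 2 * (1 / ((n : ℝ) - 1) ^ 2) := by
        have h5 : |j / ((n : ℝ) - 1)| ^ (1 + 1) ≤ 1 / ((n : ℝ) - 1) ^ 2 := by
          rw [abs_div, abs_of_pos (show (0 : ℝ) < (n : ℝ) - 1 by linarith), div_pow]
          apply div_le_div_of_nonneg_right _ (by apply pow_nonneg; linarith)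
          exact pow_le_one₀ (abs_nonneg _) hj1
        rw [div_le_iff₀ (by linarith)]
        have h6 : 0 ≤ 1 / ((n : ℝ) - 1) ^ 2 := by positivity
        nlinarith
      have h5 : |j / n - j / ((n : ℝ) - 1)| ≤ 1 / ((n : ℝ) - 1) ^ 2 := by
        have h6 : j / n - j / ((n : ℝ) - 1) = -(j / (n * ((n : ℝ) - 1))) := by
          have : (n : ℝ) - 1 ≠ 0 := by linarith
          field_simp
          ring
        rw [h6, abs_neg, abs_div, abs_of_pos (show (0 : ℝ) < n * ((n : ℝ) - 1) by apply mul_pos <;> linarith)]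
        apply div_le_div₀ zero_le_one hj1 (by apply pow_pos; linarith)
        nlinarith
      have h7 : 1 / ((n : ℝ) - 1) ^ 2 ≤ 4 / (n : ℝ) ^ 2 := by
        rw [div_le_div_iff₀ (by apply pow_pos; linarith) (by positivity)]
        nlinarith
      rw [Real.norm_eq_abs]
      have h8 : Real.log (1 - j / ((n : ℝ) - 1)) + j / n =
          (j / ((n : ℝ) - 1) + Real.log (1 - j / ((n : ℝ) - 1))) + (j / n - j / ((n : ℝ) - 1)) := by ring
      rw [h8]
      refine (abs_add_le _ _).trans ?_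
      have h9 : 12 / (n : ℝ) ^ 2 = 3 * (4 / (n : ℝ) ^ 2) := by ring
      rw [h9]
      have h10 := h3.trans h4
      linarith
    · rw [norm_zero]; positivity
  have hsum : Summable g := by
    apply Summable.of_norm_bounded _ hgb
    have := (Real.summable_one_div_nat_pow (p := 2)).2 (by norm_num)
    simpa [div_eq_mul_inv] using this.mul_left 12
  obtain ⟨G, hG⟩ := hsum
  have hG' : Tendsto (fun N => ∑ n ∈ range (N + 1), g n) atTop (𝓝 G) := hG.tendsto_sum_nat.comp (tendsto_add_atTop_nat 1)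
  have hlogP : ∀ N, Real.log (PJ D z N) = ∑ n ∈ range (N + 1), g n - SJ D z N := by
    intro N
    unfold PJ SJ
    rw [Real.log_prod]
    · rw [eq_sub_iff_add_eq, ← sum_add_distrib]
      rw [hg]
      simp only
      rw [← sum_filter]
      apply sum_congr _ (fun _ _ => rfl)
      ext p
      simp only [mem_filter, mem_Ioc, mem_range]
      constructor
      · rintro ⟨h1, h2⟩; exact ⟨by omega, h2, h1.1⟩
      · rintro ⟨h1, h2, h3⟩; exact ⟨⟨h3, by omega⟩, h2⟩
    · intro p hp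
      rw [mem_filter, mem_Ioc] at hp
      exact (factor_pos D p (by omega)).ne'
  refine ⟨Real.exp (G - L), Real.exp_pos _, ?_⟩
  have h1 : Tendsto (fun N => Real.exp (∑ n ∈ range (N + 1), g n - SJ D z N)) atTop (𝓝 (Real.exp (G - L))) :=
    (Real.continuous_exp.tendsto _).comp (hG'.sub hL)
  refine h1.congr (fun N => ?_)
  rw [← hlogP, Real.exp_log (PJ_pos D z N hz)]

/-- the constant of Conjecture F exists and is positive -/
theorem CF_tendsto (a b c : ℤ) (ha : 0 < a) (hD : ¬ IsSquare (b ^ 2 - 4 * a * c)) :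
    ∃ K : ℝ, 0 < K ∧ Tendsto (fun z => CF a b c z) atTop (𝓝 K) := by
  set z := max 2 a.toNat with hz
  have hz2 : 2 ≤ z := le_max_left _ _
  have haz : a ≤ z := by
    have : a.toNat ≤ z := le_max_right _ _
    omega
  obtain ⟨L, hL0, hL⟩ := PJ_tendsto _ hD z hz2
  refine ⟨CF a b c z * L, mul_pos (CF_pos a b c z) hL0, ?_⟩
  refine (hL.const_mul (CF a b c z)).congr' ?_
  filter_upwards [eventually_ge_atTop z] with N hN
  exact (CF_split a b c ha z N hz2 haz hN).symm

/-- comparison of the constant with the cut product -/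
theorem CF_limit_le (a b c : ℤ) (ha : 0 < a) (K : ℝ) (hK : Tendsto (fun z => CF a b c z) atTop (𝓝 K)) (z : ℕ)
    (hz : 2 ≤ z) (haz : a ≤ z) (ε : ℝ) (hε : ∀ᶠ N in atTop, |SJ (b ^ 2 - 4 * a * c) z N| ≤ ε) :
    K ≤ CF a b c z * Real.exp (ε + 1 / z) := by
  apply le_of_tendsto hK
  filter_upwards [hε, eventually_ge_atTop z] with N h1 hN
  rw [CF_split a b c ha z N hz haz hN]
  apply mul_le_mul_of_nonneg_left _ (CF_pos a b c z).le
  refine (PJ_le _ z N hz hN).trans (Real.exp_le_exp.2 ?_)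
  linarith

end Pool.Agent.W468.ConjF
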