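import Pool.Agent.Helper244.Br.Final

/-! # The weighted form of Brouwer's inequality -/

set_option autoImplicit false

namespace Pool.Agent.W468.WBrouwer

open Finset Matrix

/-! ### choosing the largest weights -/

/-- fractional knapsack: if `0 ≤ x ≤ 1` and `∑ x ≤ K`, then `∑ A x` is at most the sum of `A` over
some `K` elements -/
theorem exists_top {ι : Type*} [DecidableEq ι] (S : Finset ι) (A x : ι → ℝ) (hA : ∀ i ∈ S, 0 ≤ A i)
    (hx0 : ∀ i ∈ S, 0 ≤ x i) (hx1 : ∀ i ∈ S, x i ≤ 1) (K : ℕ) (hK : K ≤ S.card)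
    (hsum : ∑ i ∈ S, x i ≤ K) :
    ∃ P ⊆ S, P.card = K ∧ ∑ i ∈ S, A i * x i ≤ ∑ i ∈ P, A i := by
  obtain ⟨P, hP, hmax⟩ := Finset.exists_max_image (S.powersetCard K) (fun P => ∑ i ∈ P, A i)
    (Finset.powersetCard_nonempty.2 hK)
  rw [Finset.mem_powersetCard] at hP
  refine ⟨P, hP.1, hP.2, ?_⟩
  rcases P.eq_empty_or_nonempty with h0 | hne
  · -- K = 0
    have hK0 : K = 0 := by rw [← hP.2, h0]; simp
    subst hK0
    have hz : ∀ i ∈ S, x i = 0 := by
      have h1 : ∑ i ∈ S, x i = 0 := le_antisymm (by simpa using hsum) (Finset.sum_nonneg hx0)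
      exact (Finset.sum_eq_zero_iff_of_nonneg hx0).1 h1
    rw [h0, Finset.sum_empty, Finset.sum_eq_zero fun i hi => by rw [hz i hi, mul_zero]]
  · obtain ⟨p0, hp0, hmin⟩ := Finset.exists_min_image P A hne
    set t := A p0 with ht
    have ht0 : 0 ≤ t := hA p0 (hP.1 hp0)
    have hout : ∀ q ∈ S \ P, A q ≤ t := by
      intro q hq
      rw [Finset.mem_sdiff] at hq
      have hQ : insert q (P.erase p0) ∈ S.powersetCard K := by
        rw [Finset.mem_powersetCard]
        constructor
        · intro i hi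
          rw [Finset.mem_insert] at hi
          rcases hi with rfl | hi
          · exact hq.1
          · exact hP.1 (Finset.mem_of_mem_erase hi)
        · rw [Finset.card_insert_of_notMem (fun h => hq.2 (Finset.mem_of_mem_erase h)),
            Finset.card_erase_of_mem hp0, hP.2]
          have : 0 < K := by rw [← hP.2]; exact Finset.card_pos.2 hne
          omega
      have h1 := hmax _ hQ
      rw [Finset.sum_insert (fun h => hq.2 (Finset.mem_of_mem_erase h))] at h1
      have h2 := Finset.add_sum_erase P A hp0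
      linarith
    have hsplit : ∑ i ∈ S, A i * x i = ∑ i ∈ P, A i * x i + ∑ i ∈ S \ P, A i * x i := by
      rw [add_comm, Finset.sum_sdiff hP.1]
    have hsplit' : ∑ i ∈ S, x i = ∑ i ∈ P, x i + ∑ i ∈ S \ P, x i := by
      rw [add_comm, Finset.sum_sdiff hP.1]
    have h3 : ∑ i ∈ S \ P, A i * x i ≤ t * ∑ i ∈ S \ P, x i := by
      rw [Finset.mul_sum]
      apply Finset.sum_le_sum
      intro i hi
      exact mul_le_mul_of_nonneg_right (hout i hi) (hx0 i (Finset.mem_sdiff.1 hi).1)
    have h4 : ∑ i ∈ S \ P, x i ≤ K - ∑ i ∈ P, x i := by linarith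
    have h5 : t * ∑ i ∈ S \ P, x i ≤ t * (K - ∑ i ∈ P, x i) := mul_le_mul_of_nonneg_left h4 ht0
    have h6 : t * (K - ∑ i ∈ P, x i) = ∑ i ∈ P, t * (1 - x i) := by
      rw [← Finset.mul_sum, Finset.sum_sub_distrib, Finset.sum_const, hP.2, nsmul_eq_mul, mul_one]
    have h7 : ∑ i ∈ P, A i * x i + ∑ i ∈ P, t * (1 - x i) ≤ ∑ i ∈ P, A i := by
      rw [← Finset.sum_add_distrib]
      apply Finset.sum_le_sum
      intro i hi
      have := hmin i hi
      have := hx1 i (hP.1 hi)
      nlinarith
    linarith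

/-! ### the projection of a set of vectors of an orthonormal basis -/

variable {V : Type} [Fintype V] [DecidableEq V]

noncomputable def pr (b : OrthonormalBasis V ℝ (EuclideanSpace ℝ V)) (T : Finset V) : Matrix V V ℝ :=
  Matrix.of fun i j => ∑ a ∈ T, b a i * b a j

variable (b : OrthonormalBasis V ℝ (EuclideanSpace ℝ V)) (T : Finset V)

omit [DecidableEq V] in
theorem pr_symm : (pr b T)ᵀ = pr b T := by
  ext i j
  simp only [pr, Matrix.transpose_apply, Matrix.of_apply]
  exact Finset.sum_congr rfl fun a _ => mul_comm _ _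

theorem pr_mul : pr b T * pr b T = pr b T := by
  ext i j
  rw [Matrix.mul_apply]
  simp only [pr, Matrix.of_apply]
  have : ∀ l, (∑ a ∈ T, b a i * b a l) * (∑ c ∈ T, b c l * b c j) =
    ∑ a ∈ T, ∑ c ∈ T, (b a i * b c j) * (b a l * b c l) := by
    intro l
    rw [Finset.sum_mul_sum]
    apply Finset.sum_congr rfl; intro a _
    apply Finset.sum_congr rfl; intro c _
    ring
  rw [Finset.sum_congr rfl fun l _ => this l, Finset.sum_comm]
  apply Finset.sum_congr rfl; intro a ha
  rw [Finset.sum_comm]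
  simp_rw [← Finset.mul_sum, Pool.Helper237.Brouwer.inner_sum]
  simp [ha]

theorem pr_trace : ∑ i, pr b T i i = T.card := by
  simp only [pr, Matrix.of_apply]
  rw [Finset.sum_comm]
  have : ∀ a ∈ T, ∑ i, b a i * b a i = 1 := by
    intro a _
    rw [Pool.Helper237.Brouwer.inner_sum]; simp
  rw [Finset.sum_congr rfl this]; simp

/-- `0 ≤ P i i + P j j - 2 P i j ≤ 2` -/
theorem pr_le_two (i j : V) (hij : i ≠ j) : pr b T i i + pr b T j j - 2 * pr b T i j ≤ 2 := by
  have h1 : pr b T i i + pr b T j j - 2 * pr b T i j = ∑ a ∈ T, (b a i - b a j) ^ 2 := by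
    simp only [pr, Matrix.of_apply, Finset.mul_sum, ← Finset.sum_add_distrib,
      ← Finset.sum_sub_distrib]
    apply Finset.sum_congr rfl; intro a _
    ring
  have h2 : ∑ a ∈ T, (b a i - b a j) ^ 2 ≤ ∑ a, (b a i - b a j) ^ 2 :=
    Finset.sum_le_sum_of_subset_of_nonneg (Finset.subset_univ _) fun a _ _ => sq_nonneg _
  have h3 : ∑ a, (b a i - b a j) ^ 2 = 2 := by
    set v : EuclideanSpace ℝ V := EuclideanSpace.single i (1 : ℝ) - EuclideanSpace.single j (1 : ℝ)
      with hv
    have h4 : ∀ a, inner ℝ (b a) v = b a i - b a j := by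
      intro a
      rw [hv, inner_sub_right, EuclideanSpace.inner_single_right, EuclideanSpace.inner_single_right]
      simp
    have h5 := b.sum_sq_norm_inner_right v
    have h6 : ‖v‖ ^ 2 = 2 := by
      rw [EuclideanSpace.norm_sq_eq]
      have h7 : ∀ l, ‖v l‖ ^ 2 = (if l = i then 1 else 0) + (if l = j then 1 else 0) := by
        intro l
        simp only [hv, PiLp.sub_apply, PiLp.single_apply]
        by_cases e1 : l = i
        · subst e1
          have : ¬ l = j := hij
          simp [this]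
        · by_cases e2 : l = j
          · subst e2
            simp [e1]
          · simp [e1, e2]
      rw [Finset.sum_congr rfl fun l _ => h7 l, Finset.sum_add_distrib]
      simp
      norm_num
    rw [← h6, ← h5]
    apply Finset.sum_congr rfl
    intro a _
    rw [h4, Real.norm_eq_abs, sq_abs]
  rw [h1]
  linarith

/-- the number of pairs -/
theorem card_pairs (n : ℕ) :
    ((univ : Finset (Fin n × Fin n)).filter (fun p => p.1 < p.2)).card = n.choose 2 := by
  rw [Finset.card_filter, ← Finset.univ_product_univ, Finset.sum_product_right]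
  have h1 : ∀ j : Fin n, ∑ i : Fin n, (if i < j then 1 else 0) = (j : ℕ) := by
    intro j
    rw [← Finset.card_filter]
    have : (univ : Finset (Fin n)).filter (fun i => i < j) = Finset.Iio j := by
      ext i; simp
    rw [this, Fin.card_Iio]
  rw [Finset.sum_congr rfl fun j _ => h1 j, Fin.sum_univ_eq_sum_range (fun i => i) n,
    Finset.sum_range_id, Nat.choose_two_right]

/-- a sum over ordered pairs -/
theorem sum_pairs {n : ℕ} (f : Fin n → Fin n → ℝ) (hs : ∀ i j, f i j = f j i) (h0 : ∀ i, f i i = 0) :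
    ∑ i, ∑ j, f i j
      = 2 * ∑ p ∈ (univ : Finset (Fin n × Fin n)).filter (fun p => p.1 < p.2), f p.1 p.2 := by
  have e1 : ∑ p ∈ (univ : Finset (Fin n × Fin n)).filter (fun p => p.1 < p.2), f p.1 p.2
      = ∑ i, ∑ j, (if i < j then f i j else 0) := by
    rw [Finset.sum_filter, ← Finset.univ_product_univ, Finset.sum_product]
  have e2 : ∑ i, ∑ j, (if i < j then f i j else 0) = ∑ i, ∑ j, (if j < i then f i j else 0) := by
    rw [Finset.sum_comm]
    refine Finset.sum_congr rfl fun i _ => Finset.sum_congr rfl fun j _ => ?_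
    rw [hs j i]
  rw [e1, two_mul]
  conv_rhs => rw [e2]
  rw [← e2]
  conv_rhs => arg 2; rw [e2]
  rw [← Finset.sum_add_distrib]
  refine Finset.sum_congr rfl fun i _ => ?_
  rw [← Finset.sum_add_distrib]
  refine Finset.sum_congr rfl fun j _ => ?_
  rcases lt_trichotomy i j with h | h | h
  · simp [h, not_lt_of_gt h]
  · subst h; simp [h0]
  · simp [h, not_lt_of_gt h]

/-- **The weighted Brouwer inequality for a projection.** -/
theorem core {n : ℕ} (b : OrthonormalBasis (Fin n) ℝ (EuclideanSpace ℝ (Fin n)))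
    (T : Finset (Fin n)) (hb : ∀ a ∈ T, ∑ i, b a i = 0)
    (A : Matrix (Fin n) (Fin n) ℝ) (hA : ∀ i j, 0 ≤ A i j) (k : ℕ) (hTk : T.card ≤ k)
    (hk : k ≤ n - 1) :
    ∃ P : Finset (Fin n × Fin n), P.card = (k + 1).choose 2 ∧ (∀ p ∈ P, p.1 < p.2) ∧
      ∑ p ∈ (univ : Finset (Fin n × Fin n)).filter (fun p => p.1 < p.2),
        A p.1 p.2 * (pr b T p.1 p.1 + pr b T p.2 p.2 - 2 * pr b T p.1 p.2 - 1)
        ≤ ∑ p ∈ P, A p.1 p.2 := by
  classical
  set q : Fin n → Fin n → ℝ := fun i j => pr b T i i + pr b T j j - 2 * pr b T i j - 1 with hq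
  have hqs : ∀ i j, q i j = q j i := by
    intro i j
    have := congrFun (congrFun (pr_symm b T) i) j
    rw [Matrix.transpose_apply] at this
    simp only [hq]
    rw [this]; ring
  set S := (univ : Finset (Fin n × Fin n)).filter (fun p => p.1 < p.2) with hS
  set x : Fin n × Fin n → ℝ := fun p => max (q p.1 p.2) 0 with hx
  have hP1 : ∀ i, ∑ j, pr b T i j = 0 := by
    intro i
    simp only [pr, Matrix.of_apply]
    rw [Finset.sum_comm]
    apply Finset.sum_eq_zero
    intro a ha
    rw [← Finset.mul_sum, hb a ha, mul_zero]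
  -- the graph of the positive entries
  have hcore := Pool.Br.core_of_cut (pr b T) (pr_symm b T) (pr_mul b T) hP1
    (fun i j => i ≠ j ∧ 0 < q i j) (fun i j h => ⟨h.1.symm, by rw [hqs]; exact h.2⟩)
    (fun S => Pool.Br.cut (pr b T) (pr_symm b T) (pr_mul b T) hP1
      (fun i j => i ≠ j ∧ 0 < q i j) S)
  rw [pr_trace] at hcore
  have hcard : S.card = n.choose 2 := card_pairs n
  have hK : (k + 1).choose 2 ≤ S.card := by
    rw [hcard]
    rcases Nat.eq_zero_or_pos n with h0 | hpos
    · subst h0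
      have : k = 0 := by omega
      subst this
      simp
    · exact Nat.choose_le_choose 2 (by omega)
  have hx2 : ∑ p ∈ S, x p = (1 / 2) * ∑ i, ∑ j, (if i ≠ j ∧ 0 < q i j then q i j else 0) := by
    rw [sum_pairs (fun i j => if i ≠ j ∧ 0 < q i j then q i j else 0)
      (fun i j => by rw [hqs i j]; simp only [ne_comm]) (fun i => by simp)]
    have h1 : ∑ p ∈ S, x p = ∑ p ∈ S, (if p.1 ≠ p.2 ∧ 0 < q p.1 p.2 then q p.1 p.2 else 0) := by
      apply Finset.sum_congr rfl
      intro p hp
      have hne : p.1 ≠ p.2 := ne_of_lt (Finset.mem_filter.1 hp).2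
      simp only [hx]
      by_cases h : 0 < q p.1 p.2
      · rw [if_pos ⟨hne, h⟩, max_eq_left h.le]
      · rw [if_neg (fun h' => h h'.2), max_eq_right (not_lt.1 h)]
    rw [h1]; ring
  have hsum : ∑ p ∈ S, x p ≤ ((k + 1).choose 2 : ℕ) := by
    rw [hx2]
    have h1 : ((((k + 1).choose 2 : ℕ)) : ℝ) = ((k : ℝ) ^ 2 + k) / 2 := by
      rw [Nat.cast_choose_two]; push_cast; ring
    have h2 : (T.card : ℝ) ≤ k := by exact_mod_cast hTk
    have h3 : (0 : ℝ) ≤ T.card := Nat.cast_nonneg _
    rw [h1]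
    have h4 : ∑ i, ∑ j, (if i ≠ j ∧ 0 < q i j then q i j else 0) ≤ (T.card : ℝ) ^ 2 + T.card := hcore
    nlinarith
  obtain ⟨P, hPS, hPc, hP⟩ := exists_top S (fun p => A p.1 p.2) x (fun p _ => hA _ _)
    (fun p _ => le_max_right _ _) (fun p hp => by
      rw [hS, Finset.mem_filter] at hp
      simp only [hx]
      refine max_le ?_ zero_le_one
      have := pr_le_two b T p.1 p.2 (ne_of_lt hp.2)
      simp only [hq]
      linarith) _ hK hsum
  refine ⟨P, hPc, fun p hp => (Finset.mem_filter.1 (hPS hp)).2, le_trans ?_ hP⟩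
  apply Finset.sum_le_sum
  intro p _
  exact mul_le_mul_of_nonneg_left (le_max_left _ _) (hA _ _)

end Pool.Agent.W468.WBrouwer
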